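import Pool.Agent.H7.SM.MU2

set_option autoImplicit false
open Pool.Agent.H75.Perc Metric Set Filter Topology Pool.Agent.H7.UC Pool.Agent.H74.Tri
open Pool.Agent.H93.SM
open Pool.Agent.H93.SM.R (ee ee_norm ee_add ee_sub_norm ee_sub_eq crossR_ee angle ee_ne ee_mem')

/-! # MU, part 3: the linear relations -/

namespace Pool.Agent.H7.SM

local instance : NeZero 4 := ⟨by norm_num⟩

theorem cot_near (t0 : ℝ) (h : Real.sin (t0 / 2) ≠ 0) {ε : ℝ} (hε : 0 < ε) :
    ∃ e > (0 : ℝ), ∀ t, |t - t0| ≤ e → |Real.cot (t / 2) - Real.cot (t0 / 2)| ≤ ε := by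
  have hc : ContinuousAt (fun t : ℝ => Real.cot (t / 2)) t0 := by
    have h1 : (fun t : ℝ => Real.cot (t / 2)) = fun t => Real.cos (t / 2) / Real.sin (t / 2) := by
      funext t
      exact Real.cot_eq_cos_div_sin _
    rw [h1]
    apply ContinuousAt.div
    · exact (Real.continuous_cos.comp (continuous_id.div_const 2)).continuousAt
    · exact (Real.continuous_sin.comp (continuous_id.div_const 2)).continuousAt
    · exact h
  rw [Metric.continuousAt_iff] at hc
  obtain ⟨δ, hδ, h2⟩ := hc ε hε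
  refine ⟨δ / 2, by positivity, fun t ht => ?_⟩
  have h3 := h2 (x := t) (by rw [Real.dist_eq]; linarith)
  rw [Real.dist_eq] at h3
  exact h3.le

theorem cot_pi : Real.cot (Real.pi / 2) = 0 := by
  rw [Real.cot_eq_cos_div_sin, Real.cos_pi_div_two, zero_div]

theorem cot_pi2 : Real.cot (Real.pi / 2 / 2) = 1 := by
  have h : Real.pi / 2 / 2 = Real.pi / 4 := by ring
  rw [h, Real.cot_eq_cos_div_sin, Real.cos_pi_div_four, Real.sin_pi_div_four, div_self (by positivity)]

theorem cot_npi2 : Real.cot (-(Real.pi / 2) / 2) = -1 := by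
  have h : -(Real.pi / 2) / 2 = -(Real.pi / 4) := by ring
  rw [h, Real.cot_eq_cos_div_sin, Real.cos_neg, Real.sin_neg, Real.cos_pi_div_four,
    Real.sin_pi_div_four, div_neg, div_self (by positivity)]

theorem cot_n23 : Real.cot (-(2 * Real.pi / 3) / 2) = - (1 / Real.sqrt 3) := by
  have h : -(2 * Real.pi / 3) / 2 = -(Real.pi / 3) := by ring
  rw [h, Real.cot_eq_cos_div_sin, Real.cos_neg, Real.sin_neg, Real.cos_pi_div_three,
    Real.sin_pi_div_three]
  have h3 : Real.sqrt 3 ≠ 0 := by positivity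
  field_simp

/-- the sine of half of a good angle -/
theorem half_sin {t1 t2 t3 W : ℝ} (h : Good W t1 t2 t3) : 1 / 2 ≤ |Real.sin (t1 / 2)| ∧
    1 / 2 ≤ |Real.sin (t2 / 2)| ∧ 1 / 2 ≤ |Real.sin (t3 / 2)| := by
  have hpi := Real.pi_gt_three
  have hpi4 := Real.pi_le_four
  obtain ⟨_, h1, h2, h3⟩ := h
  rw [abs_le] at h2 h3
  have h1' : -(2 * Real.pi / 3) - 1 / 8 ≤ t1 ∧ t1 ≤ - (Real.pi / 2) + 1 / 8 := by
    rcases h1 with h1 | h1 <;> rw [abs_le] at h1 <;> constructor <;> linarith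
  have key : ∀ x : ℝ, Real.pi / 6 ≤ x → x ≤ 5 * Real.pi / 6 → 1 / 2 ≤ Real.sin x := by
    intro x hx1 hx2
    by_cases hx : x ≤ Real.pi / 2
    · rw [← Real.sin_pi_div_six]
      exact Real.sin_le_sin_of_le_of_le_pi_div_two (by linarith) hx hx1
    · push Not at hx
      rw [← Real.sin_pi_sub x, ← Real.sin_pi_div_six]
      exact Real.sin_le_sin_of_le_of_le_pi_div_two (by linarith) (by linarith) (by linarith)
  refine ⟨?_, ?_, ?_⟩
  · have h4 := key (-(t1 / 2)) (by linarith) (by linarith)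
    rw [Real.sin_neg] at h4
    have := neg_le_abs (Real.sin (t1 / 2))
    linarith
  · have h4 := key (t2 / 2) (by linarith) (by linarith)
    have := le_abs_self (Real.sin (t2 / 2))
    linarith
  · have h4 := key (t3 / 2) (by linarith) (by linarith)
    have := le_abs_self (Real.sin (t3 / 2))
    linarith

theorem cot_le {x : ℝ} (h : 1 / 2 ≤ |Real.sin x|) : |Real.cot x| ≤ 2 := by
  rw [Real.cot_eq_cos_div_sin, abs_div]
  rw [div_le_iff₀ (by linarith)]
  have := Real.abs_cos_le_one x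
  linarith

/-- the statement of CE for given constants -/
def CEc (η c Cc : ℝ) : Prop := ∀ t1 t2 t3 : ℝ,
  (|t1 + Real.pi / 2| ≤ η ∨ |t1 + 2 * Real.pi / 3| ≤ η) → |t2 - Real.pi / 2| ≤ η →
  |t3 - Real.pi| ≤ η → ∃ D : ℝ, c ≤ D ∧ ∀ r W S t1' t2' t3' : ℝ, 0 < r → r ≤ η → |W| ≤ 2 * r →
  0 ≤ S → S ≤ 2 * r ^ 2 → |t1' - t1 - S * Real.cot (t1 / 2)| ≤ r ^ 3 →
  |t2' - t2 - S * Real.cot (t2 / 2)| ≤ r ^ 3 → |t3' - t3 - S * Real.cot (t3 / 2)| ≤ r ^ 3 →
  |Pool.Agent.H13.Q1.Four.cardy (lam W t1' t2' t3') -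
    Pool.Agent.H13.Q1.Four.cardy (lam 0 t1 t2 t3) - D * (W - mco t1 t2 t3 * (S - W ^ 2 / 6))| ≤
    Cc * r ^ 3

theorem mu_one (huc : UC) (hstep : STEP') (hcr : CR) (hecs : ECS) (harc : ARC) (hcyc : CYC)
    (hvx : VX) (hch : CH) {η c Cc : ℝ} (hη : 0 < η) (hc : 0 < c) (hCE : CEc η c Cc) {C : ℝ}
    (hC : 0 < C) {ts : ℝ} (hts : ts = -(Real.pi / 2) ∨ ts = -(2 * Real.pi / 3)) :
    ∃ C1 r0 : ℝ, 0 < C1 ∧ 0 < r0 ∧ ∀ r : ℝ, 0 < r → r ≤ r0 → ∃ K : ℝ,
    ∀ (U0 : Finset Fc) (col0 : Fc → Bool) (z : Fc) (φ0 : ℂ → ℂ) (α : ℝ) (p0 q0 : Pos)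
      (Lf : Finset Fc → (Fc → Bool) → Prop) (W : Finset Fc → (Fc → Bool) → ℝ),
    Root U0 col0 z φ0 α p0 q0 →
    (∀ U col hi, Rh z (fun U col _ => Lf U col) U0 col0 [] U col hi →
      K ≤ dst U z ∧ ∃ φ, Data U0 z φ0 α q0 (1 / 2) C r U col φ (W U col) (lS U0 U z)) →
    ∃ m : ℝ, |m - (Real.cot (ts / 2) + 1)| ≤ 1 / 100 ∧
      |Ev z (fun U col _ => Lf U col) (fun U col _ => W U col - m * (lS U0 U z - W U col ^ 2 / 6))
        U0 col0 []| ≤ C1 * r ^ 3 := by
  have hpi := Real.pi_gt_three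
  have hpi4 := Real.pi_le_four
  -- constants
  have hsin1 : Real.sin (ts / 2) ≠ 0 := by
    rcases hts with h | h
    · rw [h]
      have e : -(Real.pi / 2) / 2 = -(Real.pi / 4) := by ring
      rw [e, Real.sin_neg, Real.sin_pi_div_four]
      have : 0 < Real.sqrt 2 := by positivity
      intro h0
      linarith
    · rw [h]
      have e : -(2 * Real.pi / 3) / 2 = -(Real.pi / 3) := by ring
      rw [e, Real.sin_neg, Real.sin_pi_div_three]
      have : 0 < Real.sqrt 3 := by positivity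
      intro h0
      linarith
  obtain ⟨e1, he1, hcot1⟩ := cot_near ts hsin1 (ε := 1 / 300) (by norm_num)
  obtain ⟨e2, he2, hcot2⟩ := cot_near (Real.pi / 2) (by
    have e : Real.pi / 2 / 2 = Real.pi / 4 := by ring
    rw [e, Real.sin_pi_div_four]
    positivity) (ε := 1 / 300) (by norm_num)
  obtain ⟨e3, he3, hcot3⟩ := cot_near Real.pi (by
    rw [Real.sin_pi_div_two]
    norm_num) (ε := 1 / 300) (by norm_num)
  set e0 : ℝ := min (min e1 e2) (min e3 (min η (1 / 20))) with he0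
  have he0p : 0 < e0 := by
    rw [he0]
    exact lt_min (lt_min he1 he2) (lt_min he3 (lt_min hη (by norm_num)))
  have he01 : e0 ≤ e1 := (min_le_left _ _).trans (min_le_left _ _)
  have he02 : e0 ≤ e2 := (min_le_left _ _).trans (min_le_right _ _)
  have he03 : e0 ≤ e3 := (min_le_right _ _).trans (min_le_left _ _)
  have he0η : e0 ≤ η := (min_le_right _ _).trans ((min_le_right _ _).trans (min_le_left _ _))
  have he020 : e0 ≤ 1 / 20 := (min_le_right _ _).trans ((min_le_right _ _).trans (min_le_right _ _))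
  set C2 : ℝ := max 1 C with hC2
  have hC21 : 1 ≤ C2 := le_max_left _ _
  have hC2C : C ≤ C2 ^ 3 := by
    have h1 : C ≤ C2 := le_max_right _ _
    nlinarith [mul_nonneg (sub_nonneg.2 hC21) (sub_nonneg.2 hC21)]
  refine ⟨(2 + |Cc| * C2 ^ 3) / c, min (η / C2) (1 / (20 * (C + 1))), by positivity, by positivity, ?_⟩
  intro r hr hr0
  have hr1 : r ≤ η / C2 := hr0.trans (min_le_left _ _)
  have hr2 : r ≤ 1 / (20 * (C + 1)) := hr0.trans (min_le_right _ _)
  have hrη : C2 * r ≤ η := by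
    rw [le_div_iff₀ (by linarith)] at hr1
    linarith
  have hr20 : r ≤ 1 / 20 := by
    refine hr2.trans ?_
    apply one_div_le_one_div_of_le (by norm_num)
    linarith
  have hCr : C * r ≤ 1 / 20 := by
    rw [le_div_iff₀ (by positivity)] at hr2
    nlinarith
  obtain ⟨K1, hK1⟩ := huc (r ^ 3) (by positivity) (1 / 2) (by norm_num)
  obtain ⟨K2, hK2⟩ := hvx (e0 / 2) (by positivity)
  refine ⟨max K1 K2, ?_⟩
  intro U0 col0 z φ0 α p0 q0 Lf W hroot hdata
  obtain ⟨hd0, φr, hDr⟩ := hdata U0 col0 [] Rh.refl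
  have hdom := hroot.st.dom
  have hCH0 := hch U0 z hdom hroot.mem
  have hd1 : K1 ≤ dst U0 z := (le_max_left _ _).trans hd0
  have hd2 : K2 ≤ dst U0 z := (le_max_right _ _).trans hd0
  -- the vertices
  have hv : ∀ t0 : ℝ, ∃ (v : Vx) (k : Fin 3) (t : ℝ), One U0 v k ∧ |t - t0| ≤ e0 ∧
      φ0 (ee (α + t)) = pv v := by
    intro t0
    obtain ⟨v, k, p, h1, h2, h3, h4⟩ := hK2 U0 φ0 (ctr z) (dst U0 z) hdom hroot.chart hroot.zero
      hCH0.2.2.1 hd2 (ee (α + t0)) (ee_norm _)
    obtain ⟨θ, h5, h6⟩ := angle h2 h4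
    refine ⟨v, k, θ - α, h1, ?_, ?_⟩
    · have : θ - α - t0 = θ - (α + t0) := by ring
      rw [this]
      linarith
    · rw [add_sub_cancel, ← h5]
      exact h3
  obtain ⟨x, kx', t1, hx1, hx2, hx3⟩ := hv ts
  obtain ⟨y, ky, t2, hy1, hy2, hy3⟩ := hv (Real.pi / 2)
  obtain ⟨w, kw, t3, hw1, hw2, hw3⟩ := hv Real.pi
  have hg0 : Good 0 t1 t2 t3 := by
    refine ⟨by norm_num, ?_, by linarith, by linarith⟩
    rcases hts with h | h
    · left
      rw [h, sub_neg_eq_add] at hx2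
      linarith
    · right
      rw [h, sub_neg_eq_add] at hx2
      linarith
  obtain ⟨s1, s2, s3, s4, s5, s6⟩ := good_sep hg0
  -- the marks
  have htip := hroot.tip
  have hone : One U0 p0.1 p0.2 := ⟨htip.1, htip.2.1, htip.2.2.1⟩
  have hpos' : φ0 (ee (α + 0)) = pv p0.1 := by rw [add_zero]; exact hroot.pos
  have sepA : ∀ {a b : ℝ}, Real.pi / 4 ≤ |a - b| ∧ |a - b| ≤ 7 * Real.pi / 4 →
      Real.pi / 4 ≤ |(α + a) - (α + b)| ∧ |(α + a) - (α + b)| ≤ 7 * Real.pi / 4 := by
    intro a b h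
    rw [add_sub_add_left_eq_sub]; exact h
  have nax : p0.1 ≠ x := (vert_ne hroot.chart hx3 hpos' (sepA s1).1 (sepA s1).2).symm
  have nay : p0.1 ≠ y := (vert_ne hroot.chart hy3 hpos' (sepA s2).1 (sepA s2).2).symm
  have naw : p0.1 ≠ w := (vert_ne hroot.chart hw3 hpos' (sepA s3).1 (sepA s3).2).symm
  have nxy : x ≠ y := vert_ne hroot.chart hx3 hy3 (sepA s4).1 (sepA s4).2
  have nxw : x ≠ w := vert_ne hroot.chart hx3 hw3 (sepA s5).1 (sepA s5).2
  have nyw : y ≠ w := vert_ne hroot.chart hy3 hw3 (sepA s6).1 (sepA s6).2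
  obtain ⟨M0, hM01, hM0⟩ := harc U0 p0.1 x y w p0.2 kx' ky kw hdom hone hx1 hy1 hw1 nax nay naw nxy
    nxw nyw
  obtain ⟨hM03, b, hb⟩ := orient4 hcyc hdom hroot.chart M0 α hg0 (by rw [hM01]; exact hroot.pos)
    hx3 hy3 hw3 hM0
  -- the expansion
  obtain ⟨D, hD, hexp⟩ := hCE t1 t2 t3 (by
    rcases hts with h | h
    · left
      rw [h, sub_neg_eq_add] at hx2
      linarith
    · right
      rw [h, sub_neg_eq_add] at hx2
      linarith) (by linarith) (by linarith)
  have hDp : 0 < D := by linarith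
  set m := mco t1 t2 t3 with hm
  set c0 := Pool.Agent.H13.Q1.Four.cardy (lam 0 t1 t2 t3) with hc0
  refine ⟨m, ?_, ?_⟩
  · have a1 := hcot1 t1 (by linarith)
    have a2 := hcot2 t2 (by linarith)
    have a3 := hcot3 t3 (by linarith)
    rw [cot_pi2] at a2
    rw [cot_pi] at a3
    rw [hm]
    unfold mco
    rw [abs_le] at a1 a2 a3 ⊢
    constructor <;> linarith
  -- the state estimate
  set Q : Finset Fc → (Fc → Bool) → List Bool → ℝ :=
    fun U col _ => W U col - m * (lS U0 U z - W U col ^ 2 / 6) with hQ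
  set H : Finset Fc → (Fc → Bool) → List Bool → ℝ := fun U col hi => flp b (c0 + D * Q U col hi)
    with hH
  have hρ : 0 < C2 * r := by positivity
  have hstate : ∀ U col hi, Rh z (fun U col _ => Lf U col) U0 col0 [] U col hi → ∀ M : Marks U 4,
      (∀ p, IsTip U col p → M.u 1 = p.1) → (∀ i, i ≠ 1 → M.u i = M0.u i) →
      |H U col hi - Pr U (Cross U (M.C 0) (M.C 2))| ≤ r ^ 3 + |Cc| * (C2 * r) ^ 3 := by
    intro U col hi hR M hM1 hM
    obtain ⟨hd, φ, hDt⟩ := hdata U col hi hR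
    set S := lS U0 U z with hS
    obtain ⟨g1, g2, g3⟩ := half_sin hg0
    obtain ⟨_, t1', ha1, hb1⟩ := hDt.mrk x kx' t1 hx1 g1 hx3
    obtain ⟨_, t2', ha2, hb2⟩ := hDt.mrk y ky t2 hy1 g2 hy3
    obtain ⟨_, t3', ha3, hb3⟩ := hDt.mrk w kw t3 hw1 g3 hw3
    have hCr3 : C * r ^ 3 ≤ 1 / 20 * r ^ 2 := by
      have : C * r ^ 3 = (C * r) * r ^ 2 := by ring
      rw [this]
      exact mul_le_mul_of_nonneg_right hCr (by positivity)
    have hr2' : r ^ 2 ≤ 1 / 400 := by nlinarith
    have hmove : ∀ t t' : ℝ, 1 / 2 ≤ |Real.sin (t / 2)| →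
        |t' - (t + S * Real.cot (t / 2))| ≤ C * r ^ 3 → |t' - t| ≤ 1 / 20 := by
      intro t t' h1 h2
      have h3 := cot_le h1
      have h4 : |S * Real.cot (t / 2)| ≤ 2 * r ^ 2 * 2 := by
        rw [abs_mul, abs_of_nonneg hDt.S0]
        exact mul_le_mul hDt.S2 h3 (abs_nonneg _) (by positivity)
      have h5 : t' - t = (t' - (t + S * Real.cot (t / 2))) + S * Real.cot (t / 2) := by ring
      rw [h5]
      refine (abs_add_le _ _).trans ?_
      linarith
    have m1 := hmove t1 t1' g1 hb1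
    have m2 := hmove t2 t2' g2 hb2
    have m3 := hmove t3 t3' g3 hb3
    have hg : Good (W U col) t1' t2' t3' := by
      refine ⟨hDt.W2.trans (by linarith), ?_, ?_, ?_⟩
      · rcases hts with h | h
        · left
          rw [h, sub_neg_eq_add] at hx2
          have : t1' + Real.pi / 2 = (t1' - t1) + (t1 + Real.pi / 2) := by ring
          rw [this]
          refine (abs_add_le _ _).trans ?_
          linarith
        · right
          rw [h, sub_neg_eq_add] at hx2
          have : t1' + 2 * Real.pi / 3 = (t1' - t1) + (t1 + 2 * Real.pi / 3) := by ring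
          rw [this]
          refine (abs_add_le _ _).trans ?_
          linarith
      · have : t2' - Real.pi / 2 = (t2' - t2) + (t2 - Real.pi / 2) := by ring
        rw [this]
        refine (abs_add_le _ _).trans ?_
        linarith
      · have : t3' - Real.pi = (t3' - t3) + (t3 - Real.pi) := by ring
        rw [this]
        refine (abs_add_le _ _).trans ?_
        linarith
    obtain ⟨p, hp, hpz, hpp⟩ := hDt.tip
    have hb' : (b = false ∧ M.u 0 = x ∧ M.u 2 = y) ∨ (b = true ∧ M.u 0 = y ∧ M.u 2 = x) := by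
      rw [hM 0 (by decide), hM 2 (by decide)]
      exact hb
    have hleaf := leaf_app hcyc hch hK1 hDt.st.dom hDt.mem hDt.chart hDt.zero
      ((le_max_left _ _).trans hd) M α (W U col) t1' t2' t3' hg b hb'
      (by rw [hM 3 (by decide)]; exact hM03) (by rw [hM1 p hp]; exact hpp) ha1 ha2 ha3
    have hC3 : C * r ^ 3 ≤ (C2 * r) ^ 3 := by
      rw [mul_pow]
      exact mul_le_mul_of_nonneg_right hC2C (by positivity)
    have hre : ∀ t t' : ℝ, |t' - (t + S * Real.cot (t / 2))| ≤ C * r ^ 3 →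
        |t' - t - S * Real.cot (t / 2)| ≤ (C2 * r) ^ 3 := by
      intro t t' h
      have : t' - t - S * Real.cot (t / 2) = t' - (t + S * Real.cot (t / 2)) := by ring
      rw [this]
      linarith
    have hE := hexp (C2 * r) (W U col) S t1' t2' t3' hρ hrη
      (hDt.W2.trans (by nlinarith)) hDt.S0
      (hDt.S2.trans (by nlinarith [mul_nonneg (sub_nonneg.2 hC21) (sub_nonneg.2 hC21), sq_nonneg r]))
      (hre _ _ hb1) (hre _ _ hb2) (hre _ _ hb3)
    have hE' : |flp b (c0 + D * Q U col hi) -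
        flp b (Pool.Agent.H13.Q1.Four.cardy (lam (W U col) t1' t2' t3'))| ≤
        |Cc| * (C2 * r) ^ 3 := by
      rw [flp_abs, abs_sub_comm]
      have e : Pool.Agent.H13.Q1.Four.cardy (lam (W U col) t1' t2' t3') - (c0 + D * Q U col hi) =
          Pool.Agent.H13.Q1.Four.cardy (lam (W U col) t1' t2' t3') - c0 -
          D * (W U col - m * (S - W U col ^ 2 / 6)) := by
        rw [hQ]
        ring
      rw [e]
      refine hE.trans ?_
      exact mul_le_mul_of_nonneg_right (le_abs_self _) (by positivity)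
    have h7 : H U col hi - Pr U (Cross U (M.C 0) (M.C 2)) =
        (flp b (c0 + D * Q U col hi) -
          flp b (Pool.Agent.H13.Q1.Four.cardy (lam (W U col) t1' t2' t3'))) -
        (Pr U (Cross U (M.C 0) (M.C 2)) -
          flp b (Pool.Agent.H13.Q1.Four.cardy (lam (W U col) t1' t2' t3'))) := by
      rw [hH]
      ring
    rw [h7]
    refine (abs_sub _ _).trans ?_
    linarith
  -- the martingale
  have hmart := mart hstep hcr hecs (H := H) (m0 := M0.u)
    (E := r ^ 3 + |Cc| * (C2 * r) ^ 3) (U0 := U0) (col0 := col0) (z := z) (q0 := q0) (Lf := Lf) (by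
      intro U col hi hR
      obtain ⟨_, φ, hDt⟩ := hdata U col hi hR
      obtain ⟨g1, g2, g3⟩ := half_sin hg0
      obtain ⟨p, hp, hpz, _⟩ := hDt.tip
      refine ⟨hDt.st, hDt.mem, ⟨p, hp, hpz⟩, hDt.exit, ?_⟩
      have f1 := (hDt.mrk x kx' t1 hx1 g1 hx3).1
      have f2 := (hDt.mrk y ky t2 hy1 g2 hy3).1
      have f3 := (hDt.mrk w kw t3 hw1 g3 hw3).1
      intro i hi'
      fin_cases i
      · rcases hb with ⟨_, h, _⟩ | ⟨_, h, _⟩
        · exact ⟨kx', by simpa [h] using f1⟩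
        · exact ⟨ky, by simpa [h] using f2⟩
      · exact absurd rfl hi'
      · rcases hb with ⟨_, _, h⟩ | ⟨_, _, h⟩
        · exact ⟨ky, by simpa [h] using f2⟩
        · exact ⟨kx', by simpa [h] using f1⟩
      · exact ⟨kw, by simpa [hM03] using f3⟩) hstate U0 col0 [] Rh.refl M0 (by
      intro p hp
      rw [hM01, H98.Tri.tipU _ _ hroot.st p p0 hp htip]) (fun i _ => rfl)
  -- the root
  have hroot' := leaf_app hcyc hch hK1 hdom hroot.mem hroot.chart hroot.zero hd1 M0 α 0 t1 t2 t3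
    hg0 b hb hM03 (by rw [add_zero, hM01]; exact hroot.pos) hx3 hy3 hw3
  have hsum : |Ev z (fun U col _ => Lf U col) H U0 col0 [] - flp b c0| ≤
      r ^ 3 + |Cc| * (C2 * r) ^ 3 + r ^ 3 := by
    have e : Ev z (fun U col _ => Lf U col) H U0 col0 [] - flp b c0 =
        (Ev z (fun U col _ => Lf U col) H U0 col0 [] - Pr U0 (Cross U0 (M0.C 0) (M0.C 2))) +
        (Pr U0 (Cross U0 (M0.C 0) (M0.C 2)) - flp b c0) := by ring
    rw [e]
    refine (abs_add_le _ _).trans ?_
    linarith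
  have hlin : |Ev z (fun U col _ => Lf U col) H U0 col0 [] - flp b c0| =
      D * |Ev z (fun U col _ => Lf U col) Q U0 col0 []| := by
    cases b
    · have e1 : H = fun U col hi => D * Q U col hi + 0 * Q U col hi + c0 := by
        funext U col hi
        rw [hH]
        simp [flp]
        ring
      rw [e1, Ev_lin]
      simp only [flp]
      have e2 : D * Ev z (fun U col _ => Lf U col) Q U0 col0 [] +
          0 * Ev z (fun U col _ => Lf U col) Q U0 col0 [] + c0 -
          (if false = true then 1 - c0 else c0) =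
          D * Ev z (fun U col _ => Lf U col) Q U0 col0 [] := by
        simp
      rw [e2, abs_mul, abs_of_pos hDp]
    · have e1 : H = fun U col hi => (-D) * Q U col hi + 0 * Q U col hi + (1 - c0) := by
        funext U col hi
        rw [hH]
        simp [flp]
        ring
      rw [e1, Ev_lin]
      simp only [flp, if_true]
      have e2 : (-D) * Ev z (fun U col _ => Lf U col) Q U0 col0 [] +
          0 * Ev z (fun U col _ => Lf U col) Q U0 col0 [] + (1 - c0) - (1 - c0) =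
          -(D * Ev z (fun U col _ => Lf U col) Q U0 col0 []) := by
        ring
      rw [e2, abs_neg, abs_mul, abs_of_pos hDp]
  rw [hlin] at hsum
  have hfin : c * |Ev z (fun U col _ => Lf U col) Q U0 col0 []| ≤
      (2 + |Cc| * C2 ^ 3) * r ^ 3 := by
    have h8 : c * |Ev z (fun U col _ => Lf U col) Q U0 col0 []| ≤
        D * |Ev z (fun U col _ => Lf U col) Q U0 col0 []| :=
      mul_le_mul_of_nonneg_right hD (abs_nonneg _)
    have h9 : r ^ 3 + |Cc| * (C2 * r) ^ 3 + r ^ 3 = (2 + |Cc| * C2 ^ 3) * r ^ 3 := by ring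
    linarith
  rw [div_mul_eq_mul_div, le_div_iff₀ hc]
  linarith

theorem mu (huc : UC) (hstep : STEP') (hcr : CR) (hecs : ECS) (harc : ARC) (hcyc : CYC)
    (hvx : VX) (hce : CE) (hch : CH) : MU := by
  obtain ⟨η, c, Cc, hη, hc, hCE⟩ := hce
  intro C hC
  obtain ⟨C1, r1, hC1, hr1, h1⟩ := mu_one huc hstep hcr hecs harc hcyc hvx hch hη hc hCE hC
    (ts := -(Real.pi / 2)) (Or.inl rfl)
  obtain ⟨C2, r2, hC2, hr2, h2⟩ := mu_one huc hstep hcr hecs harc hcyc hvx hch hη hc hCE hC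
    (ts := -(2 * Real.pi / 3)) (Or.inr rfl)
  refine ⟨50 * (C1 + C2), min r1 r2, by positivity, lt_min hr1 hr2, ?_⟩
  intro r hr hr0
  obtain ⟨K1, h1⟩ := h1 r hr (hr0.trans (min_le_left _ _))
  obtain ⟨K2, h2⟩ := h2 r hr (hr0.trans (min_le_right _ _))
  refine ⟨max K1 K2, ?_⟩
  intro U0 col0 z φ0 α p0 q0 Lf W hroot hdata
  obtain ⟨m1, hm1, hE1⟩ := h1 U0 col0 z φ0 α p0 q0 Lf W hroot (fun U col hi hR =>
    ⟨(le_max_left _ _).trans (hdata U col hi hR).1, (hdata U col hi hR).2⟩)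
  obtain ⟨m2, hm2, hE2⟩ := h2 U0 col0 z φ0 α p0 q0 Lf W hroot (fun U col hi hR =>
    ⟨(le_max_right _ _).trans (hdata U col hi hR).1, (hdata U col hi hR).2⟩)
  rw [cot_npi2] at hm1
  rw [cot_n23] at hm2
  set A := Ev z (fun U col _ => Lf U col) (fun U col _ => W U col) U0 col0 [] with hA
  set B := Ev z (fun U col _ => Lf U col) (fun U col _ => W U col ^ 2 - 6 * lS U0 U z) U0 col0 []
    with hB
  have hlin : ∀ m : ℝ, Ev z (fun U col _ => Lf U col)
      (fun U col _ => W U col - m * (lS U0 U z - W U col ^ 2 / 6)) U0 col0 [] = A + m / 6 * B := by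
    intro m
    have e1 : (fun (U : Finset Fc) (col : Fc → Bool) (_ : List Bool) =>
        W U col - m * (lS U0 U z - W U col ^ 2 / 6)) =
        fun U col hi => 1 * (fun U col _ => W U col : Finset Fc → (Fc → Bool) → List Bool → ℝ)
          U col hi + m / 6 * (fun U col _ => W U col ^ 2 - 6 * lS U0 U z :
          Finset Fc → (Fc → Bool) → List Bool → ℝ) U col hi + 0 := by
      funext U col hi
      simp only
      ring
    rw [e1, Ev_lin]
    ring
  rw [hlin] at hE1 hE2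
  have hr3 : 0 < r ^ 3 := by positivity
  have hs3 : 1 / Real.sqrt 3 ≤ 58 / 100 := by
    rw [div_le_iff₀ (by positivity)]
    have : (1.73 : ℝ) ≤ Real.sqrt 3 := by
      apply Real.le_sqrt_of_sq_le
      norm_num
    linarith
  rw [abs_le] at hm1 hm2 hE1 hE2
  have hm2' : 2 / 5 ≤ m2 := by linarith
  have hm2'' : m2 ≤ 11 / 10 := by
    have : 0 ≤ 1 / Real.sqrt 3 := by positivity
    linarith
  have hB2 : |B| ≤ 20 * (C1 + C2) * r ^ 3 := by
    rw [abs_le]
    constructor
    · by_contra hcon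
      push Not at hcon
      have hBn : B < 0 := by nlinarith
      nlinarith
    · by_contra hcon
      push Not at hcon
      have hBn : 0 < B := by nlinarith
      nlinarith
  have hA2 : |A| ≤ 50 * (C1 + C2) * r ^ 3 := by
    rw [abs_le] at hB2 ⊢
    constructor <;> nlinarith
  exact ⟨hA2, hB2.trans (by nlinarith)⟩

end Pool.Agent.H7.SM
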