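import Pool.Agent.H7.SM.Step3

set_option autoImplicit false
open Pool.Agent.H75.Perc Pool.Agent.H7.UC Pool.Agent.H74.Tri Pool.Agent.H93.SM

/-! # STEP, part 4: the theorem -/

namespace Pool.Agent.H7.SM

/-- STEP with the additional information that the new marks are vertices of `h` -/
def STEP' : Prop := ∀ (U : Finset Fc) (z h : Fc) (a : Vx) (ka : Fin 3), IsDom U → z ∈ U → h ≠ z →
  One U a ka → fc a ka = h → IsDom (comp (U \ {h}) z) ∧ ∃ s : Bool → Vx,
  (∀ c, ∃ k, fc (s c) k = h) ∧
  ∀ (n : ℕ) (hn : 2 ≤ n), haveI : NeZero n := ⟨by omega⟩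
  ∀ (M : Marks U n) (j : Fin n), M.u j = a →
  (∀ i, i ≠ j → ∃ k, fc (M.u i) k ∈ comp (U \ {h}) z) →
  ∀ c : Bool, ∃ M' : Marks (comp (U \ {h}) z) n, IsStep h M j c (s c) M'

theorem step' : STEP' := by
  classical
  intro U z h a ka hU hz hne hone hah
  obtain ⟨ho0, ho1, ho2⟩ := hone
  have hh : h ∈ U := hah ▸ ho0
  have hhz : z ∉ ({h} : Finset Fc) := by simpa using fun e => hne e.symm
  have hzU : z ∈ U \ {h} := Finset.mem_sdiff.2 ⟨hz, hhz⟩
  have hdom : IsDom (comp (U \ {h}) z) := by
    apply isDom_comp hU {h} _ hz hhz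
    intro f hf
    rw [Finset.mem_singleton] at hf
    subst hf
    refine ⟨f, Jn.refl _, fc a (ka + 1), ho1, ?_⟩
    rw [← hah]
    apply H74.Tri.adjF_fc
    have : ∀ k : Fin 3, k ≠ k + 1 := by decide
    exact this _
  refine ⟨hdom, ?_⟩
  set W := comp (U \ {h}) z with hW
  have hWU : W ⊆ U := comp_sub'
  have hhW : h ∉ W := h_not
  have hadj : ∀ {f g : Fc}, f ∈ W → g ∈ U → g ≠ h → adjF f g → g ∈ W :=
    fun {f g} a b c d => comp_adj' a b c d
  -- the neighbours
  have hT : ∃ m, nbr h m ∈ W := exists_nbr hU hz hne hh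
  have hnT : ∃ m, ¬ nbr h m ∈ W := by
    obtain ⟨ma, hma, hka⟩ := eq_vtx a ka
    rw [hah] at hma
    refine ⟨ma, fun h0 => ho1 ?_⟩
    rw [hma, hka, (vtx_fc h ma).2.1]
    exact hWU h0
  obtain ⟨m1, h1, h1'⟩ := exists_up hT hnT
  obtain ⟨m2, h2, h2'⟩ := exists_dn hT hnT
  have u1 : ∀ m, nbr h m ∉ W → nbr h (m + 1) ∈ W → m = m1 :=
    fun m a b => up_unique hU hz hne hh a b h1 h1'
  have u2 : ∀ m, nbr h m ∈ W → nbr h (m + 1) ∉ W → m = m2 :=
    fun m a b => dn_unique hU hz hne hh a b h2 h2'
  refine ⟨fun c => if c = true then vtx h m1 else vtx h m2, ?_, ?_⟩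
  · intro c
    cases c
    · exact ⟨kx m2, (vtx_fc h m2).1⟩
    · exact ⟨kx m1, (vtx_fc h m1).1⟩
  intro n hn
  have : NeZero n := ⟨by omega⟩
  intro M j hMj hoth c
  have hj : fc (M.u j) ka = h := by rw [hMj, hah]
  have hjj := fin_add_one_ne hn j
  have hends := ends hU hn hh M j hj hoth h1 h1' h2 h2' u1 u2
  have hdv := dvA hh M j hj hoth h1 h1' h2 h2' u1 u2
  obtain ⟨J, hJ⟩ : ∃ J : Fin n, J + 1 = j := ⟨j - 1, sub_add_cancel j 1⟩
  set s := (fun c : Bool => if c = true then vtx h m1 else vtx h m2) c with hs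
  -- the new marks have a face in the component and the face `h`
  have hsW : ∃ l l', fc s l ∈ W ∧ fc s l' = h := by
    cases c
    · refine ⟨kx m2 + 1, kx m2, ?_, (vtx_fc h m2).1⟩
      show fc (vtx h m2) _ ∈ W
      rw [(vtx_fc h m2).2.1]; exact h2
    · refine ⟨kx m1 + 2, kx m1, ?_, (vtx_fc h m1).1⟩
      show fc (vtx h m1) _ ∈ W
      rw [(vtx_fc h m1).2.2]; exact h1'
  have hsne : ∀ i, s ≠ M.u i := by
    intro i h0
    obtain ⟨l, l', hl, hl'⟩ := hsW
    have h3 : l = l' := mark_one M i (by rw [← h0]; exact hWU hl) (by rw [← h0, hl']; exact hh)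
    subst h3
    rw [hl'] at hl
    exact hhW hl
  -- the new edges
  have hnB : ∀ e, newE W h e → isB W e := by
    rintro e (⟨h3, h4⟩ | ⟨h3, h4⟩)
    · exact Or.inr ⟨by rw [h3]; exact hhW, h4⟩
    · exact Or.inl ⟨h3, by rw [h4]; exact hhW⟩
  have hnU : ∀ e, newE W h e → ¬ isB U e := by
    rintro e (⟨h3, h4⟩ | ⟨h3, h4⟩) (h5 | h5)
    · exact h5.2 (hWU h4)
    · exact h5.1 (by rw [h3]; exact hh)
    · exact h5.2 (by rw [h4]; exact hh)
    · exact h5.1 (hWU h3)
  have hfinE : {e | newE W h e}.Finite := by
    refine Set.Finite.subset (Set.finite_range (eg h)) ?_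
    intro e he
    have h3 := ind_newE hhW e
    rw [H74.Tri.ind_mem (s := {e | newE W h e}) he] at h3
    by_contra h4
    rw [arc_other] at h3
    · exact absurd h3 (by decide)
    · intro m hm
      exact h4 ⟨m, hm.symm⟩
  let D : Fin n → Prop := fun i => (i = j ∧ c = false) ∨ (i + 1 = j ∧ c = true)
  let C' : Fin n → Finset Ed := fun i => (M.C i).filter (fun e => isB W e) ∪
    (if D i then hfinE.toFinset else ∅)
  have memC : ∀ i e, e ∈ C' i ↔ (e ∈ M.C i ∧ isB W e) ∨ (newE W h e ∧ D i) := by
    intro i e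
    simp only [C']
    rw [Finset.mem_union, Finset.mem_filter]
    by_cases hD : D i
    · rw [if_pos hD, Set.Finite.mem_toFinset]
      constructor
      · rintro (h3 | h3)
        · exact Or.inl h3
        · exact Or.inr ⟨h3, hD⟩
      · rintro (h3 | h3)
        · exact Or.inl h3
        · exact Or.inr h3.1
    · rw [if_neg hD]
      constructor
      · rintro (h3 | h3)
        · exact Or.inl h3
        · simp at h3
      · rintro (h3 | h3)
        · exact Or.inl h3
        · exact absurd h3.2 hD
  have indC : ∀ i e, ind (↑(C' i) : Set Ed) e = Ai M W i e +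
      (if D i then ind {e | newE W h e} e else 0) := by
    intro i e
    by_cases hN : newE W h e
    · have e1 : Ai M W i e = 0 := by
        rw [Ai_of (hnB e hN), C_isB (hnU e hN)]
      rw [e1, zero_add, H74.Tri.ind_mem (s := {e | newE W h e}) hN]
      by_cases hD : D i
      · rw [if_pos hD]
        exact H74.Tri.ind_mem (by
          rw [Finset.mem_coe]
          exact (memC i e).2 (Or.inr ⟨hN, hD⟩))
      · rw [if_neg hD]
        apply H74.Tri.ind_not
        rw [Finset.mem_coe, memC]
        rintro (h3 | h3)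
        · exact hnU e hN ((M.mem e).2 ⟨i, h3.1⟩)
        · exact hD h3.2
    · rw [H74.Tri.ind_not (s := {e | newE W h e}) hN, ite_self, add_zero]
      by_cases hB : isB W e
      · rw [Ai_of hB]
        by_cases hC : e ∈ M.C i
        · rw [H74.Tri.ind_mem (s := (↑(M.C i) : Set Ed)) (by simpa using hC)]
          exact H74.Tri.ind_mem (by
            rw [Finset.mem_coe]
            exact (memC i e).2 (Or.inl ⟨hC, hB⟩))
        · rw [H74.Tri.ind_not (s := (↑(M.C i) : Set Ed)) (by simpa using hC)]
          apply H74.Tri.ind_not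
          rw [Finset.mem_coe, memC]
          rintro (h3 | h3)
          · exact hC h3.1
          · exact hN h3.1
      · rw [Ai_not hB, H74.Tri.ind_not]
        rw [Finset.mem_coe, memC]
        rintro (h3 | h3)
        · exact hB h3.2
        · exact hN h3.1
  have dvN := dv_newE hhW h1 h1' h2 h2' u1 u2
  have hone1 : ∀ k l : Fin 3, k ≠ l → k = l + 1 ∨ k = l + 2 := by decide
  refine ⟨⟨fun i => if i = j then s else M.u i, C', ?_, ?_, ?_, ?_, ?_⟩, ?_, ?_⟩
  · -- out
    intro i
    by_cases hi : i = j
    · subst hi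
      simp only [if_true]
      cases c
      · -- white
        refine ⟨kx m2 + 1, ?_, ?_, ?_, ?_⟩
        · show fc (vtx h m2) _ ∈ W
          rw [(vtx_fc h m2).2.1]; exact h2
        · show fc (vtx h m2) _ ∉ W
          have e : kx m2 + 1 + 1 = kx m2 + 2 := by generalize kx m2 = k; revert k; decide
          rw [e, (vtx_fc h m2).2.2]; exact h2'
        · show fc (vtx h m2) _ ∉ W
          have e : kx m2 + 1 + 2 = kx m2 := by generalize kx m2 = k; revert k; decide
          rw [e, (vtx_fc h m2).1]; exact hhW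
        · show ed (vtx h m2) _ ∈ C' i
          have e : kx m2 + 1 + 1 = kx m2 + 2 := by generalize kx m2 = k; revert k; decide
          rw [e, (vtx_ed h m2).2, memC]
          refine Or.inr ⟨?_, Or.inl ⟨rfl, rfl⟩⟩
          rcases eg_faces h m2 with ⟨h3, h4⟩ | ⟨h3, h4⟩
          · exact Or.inl ⟨h3, by rw [h4]; exact h2⟩
          · exact Or.inr ⟨by rw [h3]; exact h2, h4⟩
      · -- black
        have e1 : kx m1 + 2 + 1 = kx m1 := by generalize kx m1 = k; revert k; decide
        have e2 : kx m1 + 2 + 2 = kx m1 + 1 := by generalize kx m1 = k; revert k; decide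
        refine ⟨kx m1 + 2, ?_, ?_, ?_, ?_⟩
        · show fc (vtx h m1) _ ∈ W
          rw [(vtx_fc h m1).2.2]; exact h1'
        · show fc (vtx h m1) _ ∉ W
          rw [e1, (vtx_fc h m1).1]; exact hhW
        · show fc (vtx h m1) _ ∉ W
          rw [e2, (vtx_fc h m1).2.1]; exact h1
        · show ed (vtx h m1) _ ∈ C' i
          rw [e1, memC]
          left
          constructor
          · have h3 := (hends i).1
            rw [if_pos rfl] at h3
            by_contra h4
            rw [H74.Tri.ind_not (by simpa using h4)] at h3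
            exact absurd h3 (by decide)
          · rw [isB_ed', (vtx_fc h m1).2.1, (vtx_fc h m1).2.2]
            exact Or.inr ⟨h1, h1'⟩
    · simp only [if_neg hi]
      obtain ⟨k, o0, o1, o2, o3⟩ := M.out i
      obtain ⟨k', hk'⟩ := hoth i hi
      have hkk : k' = k := mark_one M i (hWU hk') o0
      subst hkk
      refine ⟨k', hk', fun h0 => o1 (hWU h0), fun h0 => o2 (hWU h0), ?_⟩
      rw [memC]
      refine Or.inl ⟨o3, ?_⟩
      rw [isB_ed']
      have e1 : k' + 1 + 1 = k' + 2 := H63.UC.f11 k'
      have e2 : k' + 1 + 2 = k' := H63.UC.f12 k'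
      rw [e1, e2]
      exact Or.inr ⟨fun h0 => o2 (hWU h0), hk'⟩
  · -- mem
    intro e
    constructor
    · intro he
      by_cases hN : newE W h e
      · cases c
        · exact ⟨j, (memC j e).2 (Or.inr ⟨hN, Or.inl ⟨rfl, rfl⟩⟩)⟩
        · exact ⟨J, (memC J e).2 (Or.inr ⟨hN, Or.inr ⟨hJ, rfl⟩⟩)⟩
      · have hUe : isB U e := by
          rcases he with ⟨h3, h4⟩ | ⟨h3, h4⟩
          · refine Or.inl ⟨hWU h3, fun h5 => ?_⟩
            by_cases h6 : rf e = h
            · exact hN (Or.inr ⟨h3, h6⟩)
            · exact h4 (hadj h3 h5 h6 ⟨e, Or.inl ⟨rfl, rfl⟩⟩)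
          · refine Or.inr ⟨fun h5 => ?_, hWU h4⟩
            by_cases h6 : lf e = h
            · exact hN (Or.inl ⟨h6, h4⟩)
            · exact h3 (hadj h4 h5 h6 ⟨e, Or.inr ⟨rfl, rfl⟩⟩)
        obtain ⟨i, hi⟩ := (M.mem e).1 hUe
        exact ⟨i, (memC i e).2 (Or.inl ⟨hi, he⟩)⟩
    · rintro ⟨i, hi⟩
      rcases (memC i e).1 hi with h3 | h3
      · exact h3.2
      · exact hnB e h3.1
  · -- disj
    intro i l hil
    rw [Finset.disjoint_left]
    intro e h3 h4
    rcases (memC i e).1 h3 with h3 | h3
    · rcases (memC l e).1 h4 with h4 | h4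
      · exact Finset.disjoint_left.1 (M.disj i l hil) h3.1 h4.1
      · exact hnU e h4.1 ((M.mem e).2 ⟨i, h3.1⟩)
    · rcases (memC l e).1 h4 with h4 | h4
      · exact hnU e h3.1 ((M.mem e).2 ⟨l, h4.1⟩)
      · apply hil
        rcases h3.2 with h5 | h5 <;> rcases h4.2 with h6 | h6
        · rw [h5.1, h6.1]
        · rw [h5.2] at h6
          exact absurd h6.2 (by decide)
        · rw [h5.2] at h6
          exact absurd h6.2 (by decide)
        · exact add_right_cancel (h5.1.trans h6.1.symm)
  · -- dvC
    intro i w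
    have e1 : dv (ind (↑(C' i) : Set Ed)) w = dv (Ai M W i) w +
        (if D i then dv (ind {e | newE W h e}) w else 0) := by
      unfold dv
      rw [indC, indC, indC]
      by_cases hD : D i
      · simp only [if_pos hD]
        ring
      · simp only [if_neg hD]
        ring
    rw [e1, hdv, dvN, (hends i).1, (hends i).2]
    by_cases hi : i = j
    · subst hi
      rw [if_pos rfl, if_neg hjj, if_pos rfl, if_neg hjj, if_pos rfl, if_neg hjj]
      cases c
      · have hD : D i := Or.inl ⟨rfl, rfl⟩
        rw [if_pos hD]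
        show _ = ind ({vtx h m2} : Set Vx) w + _
        generalize ind ({vtx h m1} : Set Vx) w = a
        generalize ind ({vtx h m2} : Set Vx) w = b
        generalize ind ({M.u (i + 1)} : Set Vx) w = d
        clear * -
        revert a b d
        decide
      · have hD : ¬ D i := by
          rintro (h3 | h3)
          · exact absurd h3.2 (by decide)
          · exact hjj h3.1
        rw [if_neg hD]
        show _ = ind ({vtx h m1} : Set Vx) w + _
        generalize ind ({vtx h m1} : Set Vx) w = a
        generalize ind ({vtx h m2} : Set Vx) w = b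
        generalize ind ({M.u (i + 1)} : Set Vx) w = d
        clear * -
        revert a b d
        decide
    · by_cases hi' : i + 1 = j
      · rw [if_neg hi, if_pos hi', if_neg hi, if_pos hi', if_neg hi, if_pos hi']
        cases c
        · have hD : ¬ D i := by
            rintro (h3 | h3)
            · exact hi h3.1
            · exact absurd h3.2 (by decide)
          rw [if_neg hD]
          show _ = _ + ind ({vtx h m2} : Set Vx) w
          generalize ind ({vtx h m1} : Set Vx) w = a
          generalize ind ({vtx h m2} : Set Vx) w = b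
          generalize ind ({M.u i} : Set Vx) w = d
          clear * -
          revert a b d
          decide
        · have hD : D i := Or.inr ⟨hi', rfl⟩
          rw [if_pos hD]
          show _ = _ + ind ({vtx h m1} : Set Vx) w
          generalize ind ({vtx h m1} : Set Vx) w = a
          generalize ind ({vtx h m2} : Set Vx) w = b
          generalize ind ({M.u i} : Set Vx) w = d
          clear * -
          revert a b d
          decide
      · have hD : ¬ D i := by
          rintro (h3 | h3)
          · exact hi h3.1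
          · exact hi' h3.1
        rw [if_neg hi, if_neg hi', if_neg hi, if_neg hi', if_neg hi, if_neg hi', if_neg hD]
        ring
  · -- inj
    intro i l hil
    simp only at hil
    by_cases hi : i = j <;> by_cases hl : l = j
    · rw [hi, hl]
    · rw [if_pos hi, if_neg hl] at hil
      exact absurd hil (hsne l)
    · rw [if_neg hi, if_pos hl] at hil
      exact absurd hil.symm (hsne i)
    · rw [if_neg hi, if_neg hl] at hil
      exact M.inj hil
  · intro i
    rfl
  · intro i e
    exact memC i e

theorem step : STEP := by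
  intro U z h a ka hU hz hne hone hah
  obtain ⟨h1, s, _, h2⟩ := step' U z h a ka hU hz hne hone hah
  exact ⟨h1, s, h2⟩

end Pool.Agent.H7.SM
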