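import Pool.Agent.H93.SM.Iface3
import Pool.Agent.H7.SM.Step4
import Pool.Agent.H98.Tri.Int
import Pool.Agent.H13.Q1.FourH

set_option autoImplicit false
open Pool.Agent.H75.Perc Metric Set Filter Topology Pool.Agent.H7.UC Pool.Agent.H74.Tri
open Pool.Agent.H93.SM
open Pool.Agent.H93.SM.R (ee ee_norm ee_add ee_sub_norm ee_sub_eq crossR_ee angle ee_ne)

/-! # MU, part 1: angles and the cross ratio -/

namespace Pool.Agent.H7.SM

local instance : NeZero 4 := ⟨by norm_num⟩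

theorem ee_sep {s t : ℝ} (h1 : Real.pi / 4 ≤ |s - t|) (h2 : |s - t| ≤ 7 * Real.pi / 4) :
    1 / 2 ≤ ‖ee s - ee t‖ := by
  have hpi := Real.pi_pos
  rw [ee_sub_eq]
  have h3 : |Real.sin ((s - t) / 2)| = |Real.sin (|s - t| / 2)| := by
    rcases abs_cases (s - t) with ⟨h, _⟩ | ⟨h, _⟩
    · rw [h]
    · rw [h, neg_div, Real.sin_neg, abs_neg]
  rw [h3]
  have h4 : 1 / 4 ≤ Real.sin (|s - t| / 2) := by
    by_cases hx : |s - t| / 2 ≤ Real.pi / 2
    · have h5 : 2 / Real.pi * (|s - t| / 2) ≤ Real.sin (|s - t| / 2) :=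
        Real.mul_le_sin (by positivity) hx
      have h6 : 1 / 4 ≤ 2 / Real.pi * (|s - t| / 2) := by
        rw [div_mul_div_comm, div_le_div_iff₀ (by norm_num) (by positivity)]
        nlinarith
      linarith
    · push Not at hx
      have h5 : 2 / Real.pi * (Real.pi - |s - t| / 2) ≤ Real.sin (Real.pi - |s - t| / 2) :=
        Real.mul_le_sin (by linarith) (by linarith)
      rw [Real.sin_pi_sub] at h5
      have h6 : 1 / 4 ≤ 2 / Real.pi * (Real.pi - |s - t| / 2) := by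
        have : Real.pi - |s - t| / 2 ≥ Real.pi / 8 := by linarith
        calc (1 : ℝ) / 4 = 2 / Real.pi * (Real.pi / 8) := by field_simp; norm_num
          _ ≤ _ := by gcongr
      linarith
  have h5 := le_abs_self (Real.sin (|s - t| / 2))
  linarith

theorem lam_swap {w t1 t2 t3 : ℝ} (h1 : Real.sin ((t2 - t1) / 2) ≠ 0)
    (h2 : Real.sin ((t3 - w) / 2) ≠ 0) : lam w t2 t1 t3 = 1 - lam w t1 t2 t3 := by
  unfold lam
  have h3 : Real.sin ((t1 - t2) / 2) = - Real.sin ((t2 - t1) / 2) := by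
    rw [← Real.sin_neg]; congr 1; ring
  rw [h3]
  have key : Real.sin ((w - t2) / 2) * Real.sin ((t3 - t1) / 2) =
      Real.sin ((w - t1) / 2) * Real.sin ((t3 - t2) / 2) -
      Real.sin ((t2 - t1) / 2) * Real.sin ((t3 - w) / 2) := by
    have e1 : (w - t2) / 2 = w / 2 - t2 / 2 := by ring
    have e2 : (t3 - t1) / 2 = t3 / 2 - t1 / 2 := by ring
    have e3 : (w - t1) / 2 = w / 2 - t1 / 2 := by ring
    have e4 : (t3 - t2) / 2 = t3 / 2 - t2 / 2 := by ring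
    have e5 : (t2 - t1) / 2 = t2 / 2 - t1 / 2 := by ring
    have e6 : (t3 - w) / 2 = t3 / 2 - w / 2 := by ring
    rw [e1, e2, e3, e4, e5, e6]
    simp only [Real.sin_sub]
    ring
  rw [key]
  field_simp
  ring

/-- `x` or `1 - x` -/
noncomputable def flp (b : Bool) (x : ℝ) : ℝ := if b = true then 1 - x else x

theorem flp_abs (b : Bool) (x y : ℝ) : |flp b x - flp b y| = |x - y| := by
  cases b
  · simp [flp]
  · simp only [flp, if_true]
    rw [abs_sub_comm]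
    congr 1
    ring

/-- the angles are in general position -/
def Good (W t1 t2 t3 : ℝ) : Prop := |W| ≤ 1 / 8 ∧
  (|t1 + Real.pi / 2| ≤ 1 / 8 ∨ |t1 + 2 * Real.pi / 3| ≤ 1 / 8) ∧ |t2 - Real.pi / 2| ≤ 1 / 8 ∧
  |t3 - Real.pi| ≤ 1 / 8

theorem good_sep {W t1 t2 t3 : ℝ} (h : Good W t1 t2 t3) :
    (Real.pi / 4 ≤ |t1 - W| ∧ |t1 - W| ≤ 7 * Real.pi / 4) ∧
    (Real.pi / 4 ≤ |t2 - W| ∧ |t2 - W| ≤ 7 * Real.pi / 4) ∧
    (Real.pi / 4 ≤ |t3 - W| ∧ |t3 - W| ≤ 7 * Real.pi / 4) ∧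
    (Real.pi / 4 ≤ |t1 - t2| ∧ |t1 - t2| ≤ 7 * Real.pi / 4) ∧
    (Real.pi / 4 ≤ |t1 - t3| ∧ |t1 - t3| ≤ 7 * Real.pi / 4) ∧
    (Real.pi / 4 ≤ |t2 - t3| ∧ |t2 - t3| ≤ 7 * Real.pi / 4) := by
  have hpi := Real.pi_gt_three
  obtain ⟨h0, h1, h2, h3⟩ := h
  rw [abs_le] at h0 h2 h3
  have h1' : -(2 * Real.pi / 3) - 1 / 8 ≤ t1 ∧ t1 ≤ - (Real.pi / 2) + 1 / 8 := by
    rcases h1 with h1 | h1 <;> rw [abs_le] at h1 <;> constructor <;> linarith
  have e1 : |t1 - W| = W - t1 := by rw [abs_sub_comm, abs_of_nonneg]; linarith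
  have e2 : |t2 - W| = t2 - W := by rw [abs_of_nonneg]; linarith
  have e3 : |t3 - W| = t3 - W := by rw [abs_of_nonneg]; linarith
  have e4 : |t1 - t2| = t2 - t1 := by rw [abs_sub_comm, abs_of_nonneg]; linarith
  have e5 : |t1 - t3| = t3 - t1 := by rw [abs_sub_comm, abs_of_nonneg]; linarith
  have e6 : |t2 - t3| = t3 - t2 := by rw [abs_sub_comm, abs_of_nonneg]; linarith
  rw [e1, e2, e3, e4, e5, e6]
  refine ⟨⟨?_, ?_⟩, ⟨?_, ?_⟩, ⟨?_, ?_⟩, ⟨?_, ?_⟩, ⟨?_, ?_⟩, ⟨?_, ?_⟩⟩ <;> linarith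

theorem good_lam {W t1 t2 t3 : ℝ} (h : Good W t1 t2 t3) :
    lam W t2 t1 t3 = 1 - lam W t1 t2 t3 ∧ lam W t1 t3 t2 < 0 ∧ lam W t2 t3 t1 < 0 ∧
    lam W t3 t1 t2 = 1 - lam W t1 t3 t2 ∧ lam W t3 t2 t1 = 1 - lam W t2 t3 t1 := by
  have hpi := Real.pi_gt_three
  have hpi4 := Real.pi_le_four
  obtain ⟨h0, h1, h2, h3⟩ := h
  rw [abs_le] at h0 h2 h3
  have h1' : -(2 * Real.pi / 3) - 1 / 8 ≤ t1 ∧ t1 ≤ - (Real.pi / 2) + 1 / 8 := by
    rcases h1 with h1 | h1 <;> rw [abs_le] at h1 <;> constructor <;> linarith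
  have a1 : 0 < Real.sin ((W - t1) / 2) := Real.sin_pos_of_pos_of_lt_pi (by linarith) (by linarith)
  have a2 : 0 < Real.sin ((t2 - W) / 2) := Real.sin_pos_of_pos_of_lt_pi (by linarith) (by linarith)
  have a3 : 0 < Real.sin ((t3 - W) / 2) := Real.sin_pos_of_pos_of_lt_pi (by linarith) (by linarith)
  have a4 : 0 < Real.sin ((t2 - t1) / 2) := Real.sin_pos_of_pos_of_lt_pi (by linarith) (by linarith)
  have a5 : 0 < Real.sin ((t3 - t1) / 2) := Real.sin_pos_of_pos_of_lt_pi (by linarith) (by linarith)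
  have a6 : 0 < Real.sin ((t3 - t2) / 2) := Real.sin_pos_of_pos_of_lt_pi (by linarith) (by linarith)
  have neg : ∀ a b : ℝ, Real.sin ((a - b) / 2) = - Real.sin ((b - a) / 2) := by
    intro a b
    rw [← Real.sin_neg]; congr 1; ring
  refine ⟨lam_swap a4.ne' a3.ne', ?_, ?_, ?_, ?_⟩
  · unfold lam
    rw [neg t2 t3]
    apply div_neg_of_neg_of_pos
    · nlinarith [mul_pos a1 a6]
    · exact mul_pos a5 a2
  · unfold lam
    rw [neg W t2, neg t1 t3, neg t1 W]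
    rw [neg_mul_neg]
    apply div_neg_of_pos_of_neg
    · exact mul_pos a2 a5
    · nlinarith [mul_pos a6 a1]
  · exact lam_swap a5.ne' a2.ne'
  · exact lam_swap a6.ne' (by rw [neg t1 W]; exact (neg_neg_of_pos a1).ne)

/-- the uniform Cardy formula in terms of angles -/
theorem uc_app (hcyc : CYC) (hch : CH) {ε K : ℝ}
    (hK : ∀ (U : Finset Fc) (M : Marks U 4) (z : ℂ) (R : ℝ) (φ : ℂ → ℂ) (p : Fin 4 → ℂ),
      Sit 4 U M z R (1 / 2) φ p → K ≤ R → |Pr U (Cross U (M.C 0) (M.C 2)) -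
        Pool.Agent.H13.Q1.Four.cardy (crossR (p 0) (p 1) (p 2) (p 3)).re| ≤ ε)
    {U : Finset Fc} {z : Fc} {φ : ℂ → ℂ} (hU : IsDom U) (hz : z ∈ U) (hφ : DiscChart (reg U) φ)
    (h0 : φ 0 = ctr z) (hd : K ≤ dst U z) (M : Marks U 4) (α : ℝ) (s : Fin 4 → ℝ)
    (hs : ∀ j, φ (ee (α + s j)) = pv (M.u j))
    (hsep : ∀ j l, j ≠ l → Real.pi / 4 ≤ |s j - s l| ∧ |s j - s l| ≤ 7 * Real.pi / 4) :
    |Pr U (Cross U (M.C 0) (M.C 2)) -
      Pool.Agent.H13.Q1.Four.cardy (lam (s 1) (s 0) (s 2) (s 3))| ≤ ε ∧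
    0 < lam (s 1) (s 0) (s 2) (s 3) ∧ lam (s 1) (s 0) (s 2) (s 3) < 1 := by
  have e1 : (crossR (ee (α + s 0)) (ee (α + s 1)) (ee (α + s 2)) (ee (α + s 3))).re =
      lam (s 1) (s 0) (s 2) (s 3) := by
    rw [crossR_ee, Complex.ofReal_re]
  have hm : ∀ j, ‖ee (α + s j)‖ = 1 ∧ φ (ee (α + s j)) = pv (M.u j) := fun j => ⟨ee_norm _, hs j⟩
  have hS : Sit 4 U M (ctr z) (dst U z) (1 / 2) φ (fun j => ee (α + s j)) :=
    ⟨hU, (hch U z hU hz).2.2.1, hφ, h0, hm, fun j l hjl => by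
      have := hsep j l hjl
      apply ee_sep
      · rw [add_sub_add_left_eq_sub]; exact this.1
      · rw [add_sub_add_left_eq_sub]; exact this.2⟩
  have h1 := hK U M (ctr z) (dst U z) φ _ hS hd
  have h2 := hcyc U M φ (fun j => ee (α + s j)) hU hφ hm
  simp only [e1] at h1 h2
  exact ⟨h1, h2⟩

/-- the same with the two possible orientations -/
theorem leaf_app (hcyc : CYC) (hch : CH) {ε K : ℝ}
    (hK : ∀ (U : Finset Fc) (M : Marks U 4) (z : ℂ) (R : ℝ) (φ : ℂ → ℂ) (p : Fin 4 → ℂ),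
      Sit 4 U M z R (1 / 2) φ p → K ≤ R → |Pr U (Cross U (M.C 0) (M.C 2)) -
        Pool.Agent.H13.Q1.Four.cardy (crossR (p 0) (p 1) (p 2) (p 3)).re| ≤ ε)
    {U : Finset Fc} {z : Fc} {φ : ℂ → ℂ} (hU : IsDom U) (hz : z ∈ U) (hφ : DiscChart (reg U) φ)
    (h0 : φ 0 = ctr z) (hd : K ≤ dst U z) (M : Marks U 4) (α W t1 t2 t3 : ℝ)
    (hg : Good W t1 t2 t3) {x y w : Vx} (b : Bool)
    (hb : (b = false ∧ M.u 0 = x ∧ M.u 2 = y) ∨ (b = true ∧ M.u 0 = y ∧ M.u 2 = x))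
    (h3 : M.u 3 = w) (ht : φ (ee (α + W)) = pv (M.u 1)) (hx : φ (ee (α + t1)) = pv x)
    (hy : φ (ee (α + t2)) = pv y) (hw : φ (ee (α + t3)) = pv w) :
    |Pr U (Cross U (M.C 0) (M.C 2)) -
      flp b (Pool.Agent.H13.Q1.Four.cardy (lam W t1 t2 t3))| ≤ ε := by
  obtain ⟨s1, s2, s3, s4, s5, s6⟩ := good_sep hg
  rcases hb with ⟨rfl, h00, h02⟩ | ⟨rfl, h00, h02⟩
  · have := uc_app hcyc hch hK hU hz hφ h0 hd M α ![t1, W, t2, t3] (by
      intro j
      fin_cases j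
      · simpa [h00] using hx
      · simpa using ht
      · simpa [h02] using hy
      · simpa [h3] using hw) (by
      intro j l hjl
      fin_cases j <;> fin_cases l <;> simp at hjl ⊢ <;>
        first | assumption | (rw [abs_sub_comm]; assumption))
    simpa [flp] using this.1
  · have := uc_app hcyc hch hK hU hz hφ h0 hd M α ![t2, W, t1, t3] (by
      intro j
      fin_cases j
      · simpa [h00] using hy
      · simpa using ht
      · simpa [h02] using hx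
      · simpa [h3] using hw) (by
      intro j l hjl
      fin_cases j <;> fin_cases l <;> simp at hjl ⊢ <;>
        first | assumption | (rw [abs_sub_comm]; assumption))
    have hl := (good_lam hg).1
    have e : lam (![t2, W, t1, t3] 1) (![t2, W, t1, t3] 0) (![t2, W, t1, t3] 2)
        (![t2, W, t1, t3] 3) = 1 - lam W t1 t2 t3 := by
      simpa using hl
    rw [e] at this
    have h5 := Pool.Agent.H13.Q1.Four.cardy_symm (l := lam W t1 t2 t3)
      ⟨by linarith [this.2.2], by linarith [this.2.1]⟩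
    rw [h5] at this
    simpa [flp] using this.1

end Pool.Agent.H7.SM
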