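import Pool.Agent.H7.SM.MU1

set_option autoImplicit false
open Pool.Agent.H75.Perc Metric Set Filter Topology Pool.Agent.H7.UC Pool.Agent.H74.Tri
open Pool.Agent.H93.SM
open Pool.Agent.H93.SM.R (ee ee_norm ee_add ee_sub_norm ee_sub_eq crossR_ee angle ee_ne ee_mem')

/-! # MU, part 2: orientation of the marks, the martingale -/

namespace Pool.Agent.H7.SM

local instance : NeZero 4 := ⟨by norm_num⟩

theorem cyc_app (hcyc : CYC) {U : Finset Fc} {φ : ℂ → ℂ} (hU : IsDom U) (hφ : DiscChart (reg U) φ)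
    (M : Marks U 4) (α : ℝ) (s : Fin 4 → ℝ) (hs : ∀ j, φ (ee (α + s j)) = pv (M.u j)) :
    0 < lam (s 1) (s 0) (s 2) (s 3) ∧ lam (s 1) (s 0) (s 2) (s 3) < 1 := by
  have e1 : (crossR (ee (α + s 0)) (ee (α + s 1)) (ee (α + s 2)) (ee (α + s 3))).re =
      lam (s 1) (s 0) (s 2) (s 3) := by
    rw [crossR_ee, Complex.ofReal_re]
  have h2 := hcyc U M φ (fun j => ee (α + s j)) hU hφ (fun j => ⟨ee_norm _, hs j⟩)
  simp only [e1] at h2
  exact h2

theorem orient4 (hcyc : CYC) {U : Finset Fc} {φ : ℂ → ℂ} (hU : IsDom U)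
    (hφ : DiscChart (reg U) φ) (M : Marks U 4) (α : ℝ) {t1 t2 t3 : ℝ} (hg : Good 0 t1 t2 t3)
    {x y w : Vx} (ht : φ (ee α) = pv (M.u 1)) (hx : φ (ee (α + t1)) = pv x)
    (hy : φ (ee (α + t2)) = pv y) (hw : φ (ee (α + t3)) = pv w)
    (hM : ({M.u 0, M.u 2, M.u 3} : Set Vx) = {x, y, w}) :
    M.u 3 = w ∧ ∃ b : Bool, (b = false ∧ M.u 0 = x ∧ M.u 2 = y) ∨
      (b = true ∧ M.u 0 = y ∧ M.u 2 = x) := by
  have h0 : M.u 0 ∈ ({x, y, w} : Set Vx) := by rw [← hM]; simp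
  have h2 : M.u 2 ∈ ({x, y, w} : Set Vx) := by rw [← hM]; simp
  have h3 : M.u 3 ∈ ({x, y, w} : Set Vx) := by rw [← hM]; simp
  simp only [Set.mem_insert_iff, Set.mem_singleton_iff] at h0 h2 h3
  have n02 : M.u 0 ≠ M.u 2 := fun h => absurd (M.inj h) (by decide)
  have n03 : M.u 0 ≠ M.u 3 := fun h => absurd (M.inj h) (by decide)
  have n23 : M.u 2 ≠ M.u 3 := fun h => absurd (M.inj h) (by decide)
  obtain ⟨l1, l2, l3, l4, l5⟩ := good_lam hg
  have ht' : φ (ee (α + 0)) = pv (M.u 1) := by rw [add_zero]; exact ht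
  have bad : ∀ s0 s2 s3 : ℝ, φ (ee (α + s0)) = pv (M.u 0) → φ (ee (α + s2)) = pv (M.u 2) →
      φ (ee (α + s3)) = pv (M.u 3) → 0 < lam 0 s0 s2 s3 ∧ lam 0 s0 s2 s3 < 1 := by
    intro s0 s2 s3 a0 a2 a3
    have := cyc_app hcyc hU hφ M α ![s0, 0, s2, s3] (by
      intro j
      fin_cases j
      · simpa using a0
      · simpa using ht
      · simpa using a2
      · simpa using a3)
    simpa using this
  rcases h0 with h0 | h0 | h0 <;> rcases h2 with h2 | h2 | h2 <;> rcases h3 with h3 | h3 | h3 <;>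
    first
    | exact absurd (h0.trans h2.symm) n02
    | exact absurd (h0.trans h3.symm) n03
    | exact absurd (h2.trans h3.symm) n23
    | exact ⟨h3, false, Or.inl ⟨rfl, h0, h2⟩⟩
    | exact ⟨h3, true, Or.inr ⟨rfl, h0, h2⟩⟩
    | skip
  · have := bad t1 t3 t2 (h0 ▸ hx) (h2 ▸ hw) (h3 ▸ hy)
    linarith
  · have := bad t2 t3 t1 (h0 ▸ hy) (h2 ▸ hw) (h3 ▸ hx)
    linarith
  · have := bad t3 t1 t2 (h0 ▸ hw) (h2 ▸ hx) (h3 ▸ hy)
    linarith
  · have := bad t3 t2 t1 (h0 ▸ hw) (h2 ▸ hy) (h3 ▸ hx)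
    linarith

theorem vert_ne {U : Finset Fc} {φ : ℂ → ℂ} (hφ : DiscChart (reg U) φ) {u u' : ℝ} {v v' : Vx}
    (h : φ (ee u) = pv v) (h' : φ (ee u') = pv v') (h1 : Real.pi / 4 ≤ |u - u'|)
    (h2 : |u - u'| ≤ 7 * Real.pi / 4) : v ≠ v' := by
  rintro rfl
  have h3 := hφ.inj (ee_mem' u) (ee_mem' u') (h.trans h'.symm)
  have h4 := ee_sep h1 h2
  rw [h3, sub_self, norm_zero] at h4
  norm_num at h4

/-- the crossing probability of marks which follow the tip is a martingale -/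
theorem mart (hstep : STEP') (hcr : CR) (hecs : ECS) {U0 : Finset Fc} {col0 : Fc → Bool} {z : Fc}
    {q0 : Pos} {Lf : Finset Fc → (Fc → Bool) → Prop}
    {H : Finset Fc → (Fc → Bool) → List Bool → ℝ} {E : ℝ} {m0 : Fin 4 → Vx}
    (hst : ∀ U col hi, Rh z (fun U col _ => Lf U col) U0 col0 [] U col hi →
      St U col ∧ z ∈ U ∧ (∃ p, IsTip U col p ∧ ph p ≠ z) ∧
      (∃ q, IsExit U col q ∧ nb q.1 q.2 = nb q0.1 q0.2) ∧
      (∀ i, i ≠ 1 → ∃ k, fc (m0 i) k ∈ U))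
    (hleaf : ∀ U col hi, Rh z (fun U col _ => Lf U col) U0 col0 [] U col hi → ∀ M : Marks U 4,
      (∀ p, IsTip U col p → M.u 1 = p.1) → (∀ i, i ≠ 1 → M.u i = m0 i) →
      |H U col hi - Pr U (Cross U (M.C 0) (M.C 2))| ≤ E) :
    ∀ U col hi, Rh z (fun U col _ => Lf U col) U0 col0 [] U col hi → ∀ M : Marks U 4,
      (∀ p, IsTip U col p → M.u 1 = p.1) → (∀ i, i ≠ 1 → M.u i = m0 i) →
      |Ev z (fun U col _ => Lf U col) H U col hi - Pr U (Cross U (M.C 0) (M.C 2))| ≤ E := by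
  refine Ev_ind (z := z) (stop := fun U col _ => Lf U col) (P := fun U col hi =>
    Rh z (fun U col _ => Lf U col) U0 col0 [] U col hi → ∀ M : Marks U 4,
      (∀ p, IsTip U col p → M.u 1 = p.1) → (∀ i, i ≠ 1 → M.u i = m0 i) →
      |Ev z (fun U col _ => Lf U col) H U col hi - Pr U (Cross U (M.C 0) (M.C 2))| ≤ E) ?_ ?_
  · intro U col hi hend hR M hM1 hM
    have h1 := hleaf U col hi hR M hM1 hM
    rcases hend with h2 | h2 | h2
    · rw [Ev_none h2]; exact h1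
    · rw [Ev_stop h2]; exact h1
    · rw [Ev_z h2]; exact h1
  · intro U col hi s htip hLf hsz ih1 ih0 hR M hM1 hM
    obtain ⟨hSt, hz, _, ⟨q, hq, hqe⟩, _⟩ := hst U col hi hR
    obtain ⟨p, hp, rfl⟩ := tipF_spec htip
    have hR1 : ∀ c, Rh z (fun U col _ => Lf U col) U0 col0 [] (comp (U \ {ph p}) z)
        (Function.update col (ph p) c) (c :: hi) := fun c => Rh.step _ _ _ _ _ hR hLf htip hsz
    have hone : One U p.1 p.2 := ⟨hp.1, hp.2.1, hp.2.2.1⟩
    obtain ⟨_, s, _, hs⟩ := hstep U z (ph p) p.1 p.2 hSt.dom hz hsz hone rfl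
    have hoth : ∀ i, i ≠ 1 → ∃ k, fc (M.u i) k ∈ comp (U \ {ph p}) z := by
      intro i hi'
      rw [hM i hi']
      exact (hst _ _ _ (hR1 true)).2.2.2.2 i hi'
    obtain ⟨M1, hM1'⟩ := hs 4 (by norm_num) M 1 (hM1 p hp) hoth true
    obtain ⟨M0, hM0'⟩ := hs 4 (by norm_num) M 1 (hM1 p hp) hoth false
    -- the tips of the successors
    have hcomp := hecs U col z p q hSt hz hp hq hsz
    have hpb : pb q ∈ comp (U \ {ph p}) z := by
      obtain ⟨_, _, _, ⟨q', hq', hqe'⟩, _⟩ := hst _ _ _ (hR1 true)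
      have e : nb q'.1 q'.2 = nb q.1 q.2 := by rw [hqe', hqe]
      have h1 : pb q' ∈ comp (U \ {ph p}) z := hq'.1
      have h2 : pb q' ∈ U := comp_sub' h1
      -- the exit vertex has exactly one face
      have f0 : fc (nb q.1 q.2) q.2 ∈ U := hq.1
      have f1 : fc (nb q.1 q.2) (q.2 + 1) ∉ U := by
        rw [fc_nb1]; exact hq.2.2.1
      have f2 : fc (nb q.1 q.2) (q.2 + 2) ∉ U := by
        rw [fc_nb2]; exact hq.2.1
      have h3 : pb q' = fc (nb q.1 q.2) q'.2 := by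
        show fc (nb q'.1 q'.2) q'.2 = _
        rw [e]
      have key : ∀ k l : Fin 3, l = k ∨ l = k + 1 ∨ l = k + 2 := by decide
      rcases key q.2 q'.2 with h4 | h4 | h4
      · have h5 : pb q' = pb q := by
          rw [h3, h4]; rfl
        rw [← h5]; exact h1
      · rw [h3, h4] at h2; exact absurd h2 f1
      · rw [h3, h4] at h2; exact absurd h2 f2
    have htips := hcomp.2 hpb s (fun M2 hM20 hM21 c => hs 2 le_rfl M2 0 hM20 (fun i hi' => by
      have : i = 1 := by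
        revert hi'
        revert i
        decide
      rw [this]; exact hM21) c)
    have hnew : ∀ c p', IsTip (comp (U \ {ph p}) z) (Function.update col (ph p) c) p' →
        s c = p'.1 := by
      intro c p' hp'
      obtain ⟨p'', _, hp'', e, _⟩ := htips c
      have h1 := H98.Tri.tipU _ _ (hcomp.1 c) p' p'' hp' hp''
      rw [h1, e]
    have hu1 := hM1'.1
    have hu0 := hM0'.1
    have i1 := ih1 (hR1 true) M1 (fun p' hp' => by
      rw [hu1 1, if_pos rfl]; exact hnew true p' hp') (fun i hi' => by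
      rw [hu1 i, if_neg hi']; exact hM i hi')
    have i0 := ih0 (hR1 false) M0 (fun p' hp' => by
      rw [hu0 1, if_pos rfl]; exact hnew false p' hp') (fun i hi' => by
      rw [hu0 i, if_neg hi']; exact hM i hi')
    rw [Ev_step htip hLf hsz, hcr U z (ph p) p.1 p.2 hSt.dom hz hsz hone rfl M (hM1 p hp) hoth
      (s true) (s false) M1 M0 hM1' hM0']
    rw [abs_le] at i1 i0 ⊢
    constructor <;> linarith

end Pool.Agent.H7.SM
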