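import Pool.Agent.H93.SM.Iface
import Pool.Agent.H63.UC.MD1

set_option autoImplicit false
open Pool.Agent.H75.Perc Pool.Agent.H7.UC Pool.Agent.H74.Tri Pool.Agent.H93.SM

/-! # STEP (module SM of MP_2e6055): revealing the face at a mark -/

namespace Pool.Agent.H7.SM

theorem nbr_adj (s : Fc) (m : Fin 6) : adjF (nbr s m) (nbr s (m + 1)) := by
  obtain ⟨_, h2, h3⟩ := vtx_fc s m
  rw [← h2, ← h3]
  apply adjF_fc
  have : ∀ k : Fin 3, k + 1 ≠ k + 2 := by decide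
  exact this _

theorem nbr_ne (s : Fc) (m : Fin 6) : nbr s m ≠ s := fun h => adjF_ne (adj_nbr s m) h.symm

theorem vtx_inj (s : Fc) {m l : Fin 6} (h : vtx s m = vtx s l) : m = l := by
  obtain ⟨i, j⟩ := s
  fin_cases m <;> fin_cases l <;> simp [vtx] at h ⊢ <;> omega

theorem bd_eg (s : Set Fc) (h : Fc) (m : Fin 6) : bd s (eg h m) = ind s h + ind s (nbr h m) := by
  unfold bd
  rcases eg_faces h m with ⟨h1, h2⟩ | ⟨h1, h2⟩ <;> rw [h1, h2]
  exact add_comm _ _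

/-- indicator of the cyclic interval `(a, b]` -/
def kk (a b m : Fin 6) : ZMod 2 := if (m - a - 1).val < (b - a).val then 1 else 0

theorem kk_dv : ∀ a b : Fin 6, a ≠ b → ∀ m, kk a b m + kk a b (m + 1) =
    (if m = a then 1 else 0) + (if m = b then 1 else 0) := by decide
theorem kk_a : ∀ a b : Fin 6, a ≠ b → kk a b (a + 1) = 1 := by decide
theorem kk_b : ∀ a b : Fin 6, a ≠ b → kk a b b = 1 := by decide
theorem kk_a' : ∀ a b : Fin 6, a ≠ b → kk a b a = 0 := by decide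
theorem kk_b' : ∀ a b : Fin 6, a ≠ b → kk a b (b + 1) = 0 := by decide
theorem kk_up1 : ∀ m n : Fin 6, m + 1 ≠ n → kk (m + 1) (n + 1) n = 1 ∨ m = n := by decide
theorem kk_up0 : ∀ m n : Fin 6, n + 1 ≠ m → kk (m + 1) (n + 1) m = 0 ∨ m = n := by decide

theorem arc_kk (s : Fc) {a b : Fin 6} (hab : a ≠ b) (v : Vx) :
    dv (arc s (kk a b)) v = ind ({vtx s a} : Set Vx) v + ind ({vtx s b} : Set Vx) v := by
  rw [arc_dv]
  have : ∀ m, (kk a b m + kk a b (m + 1)) * ind ({vtx s m} : Set Vx) v =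
      (if m = a then ind ({vtx s m} : Set Vx) v else 0) +
      (if m = b then ind ({vtx s m} : Set Vx) v else 0) := by
    intro m
    rw [kk_dv a b hab m]
    by_cases h1 : m = a
    · have h2 : m ≠ b := fun h2 => hab (h1.symm.trans h2)
      rw [if_pos h1, if_neg h2, if_pos h1, if_neg h2, add_zero, add_zero, one_mul]
    · by_cases h2 : m = b
      · rw [if_neg h1, if_pos h2, if_neg h1, if_pos h2, zero_add, zero_add, one_mul]
      · rw [if_neg h1, if_neg h2, if_neg h1, if_neg h2, zero_add, zero_mul]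
  simp only [this]
  rw [Finset.sum_add_distrib, Finset.sum_ite_eq' Finset.univ a, Finset.sum_ite_eq' Finset.univ b]
  simp

section Geo

variable {U : Finset Fc} {z h : Fc}

theorem h_not : h ∉ comp (U \ {h}) z := fun hh => by
  have := comp_sub _ _ hh
  simp at this

theorem comp_sub' : comp (U \ {h}) z ⊆ U := fun _ hf => (Finset.mem_sdiff.1 (comp_sub _ _ hf)).1

theorem comp_adj' {f g : Fc} (hf : f ∈ comp (U \ {h}) z) (hg : g ∈ U) (hgh : g ≠ h)
    (hfg : adjF f g) : g ∈ comp (U \ {h}) z :=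
  comp_adj hf (Finset.mem_sdiff.2 ⟨hg, by simpa using hgh⟩) hfg

/-- neighbours of `h` in the component are contiguous -/
theorem cont (hU : IsDom U) (hz : z ∈ U) (hne : h ≠ z) (hh : h ∈ U) {m n : Fin 6} (hmn : m ≠ n)
    (hm : nbr h m ∈ comp (U \ {h}) z) (hn : nbr h n ∈ comp (U \ {h}) z) {o o' : Fin 6}
    (ho : nbr h o ∉ U) (ho' : nbr h o' ∉ U) : kk m n o = kk m n o' := by
  have hzU : z ∈ U \ {h} := Finset.mem_sdiff.2 ⟨hz, by simpa using fun e => hne e.symm⟩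
  have hvm : ∀ m, nbr h m ∈ comp (U \ {h}) z → inV (comp (U \ {h}) z) (vtx h m) :=
    fun m hm => ⟨kx m + 1, by rw [(vtx_fc h m).2.1]; exact hm⟩
  obtain ⟨P, hP, hPd⟩ := Rp.conn (mem_comp_self hzU) (fun f hf => comp_jn hf) (hvm m hm) (hvm n hn)
  obtain ⟨s, hs, hsb⟩ := H63.UC.d1 U hU (fun e => P e + arc h (kk m n) e) (by
    intro e he
    by_cases h1 : P e = 0
    · refine arc_supp hh (kk m n) e (fun h2 => he ?_)
      show P e + arc h (kk m n) e = 0
      rw [h1, h2, add_zero]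
    · exact (hP e h1).imp (fun h => comp_sub' h) (fun h => comp_sub' h)) (by
    intro v
    rw [H74.Tri.dv_add, hPd, arc_kk h hmn]
    generalize ind {vtx h m} v = a
    generalize ind {vtx h n} v = b
    clear * -
    revert a b
    decide)
  have key : ∀ o, nbr h o ∉ U → kk m n o = ind (↑s : Set Fc) h := by
    intro o ho
    have h1 := hsb (eg h o)
    have h2 : P (eg h o) = 0 := by
      by_contra h3
      rcases (inE_eg _ _ _).1 (hP _ h3) with h4 | h4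
      · exact h_not h4
      · exact ho (comp_sub' h4)
    rw [h2, arc_eg, bd_eg, zero_add, H74.Tri.ind_not (a := nbr h o)
      (fun h3 => ho (hs (Finset.mem_coe.1 h3))), add_zero] at h1
    exact h1
  rw [key o ho, key o' ho']

theorem up_unique (hU : IsDom U) (hz : z ∈ U) (hne : h ≠ z) (hh : h ∈ U) {m n : Fin 6}
    (hm : nbr h m ∉ comp (U \ {h}) z) (hm' : nbr h (m + 1) ∈ comp (U \ {h}) z)
    (hn : nbr h n ∉ comp (U \ {h}) z) (hn' : nbr h (n + 1) ∈ comp (U \ {h}) z) : m = n := by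
  by_contra hmn
  have ho : ∀ m, nbr h m ∉ comp (U \ {h}) z → nbr h (m + 1) ∈ comp (U \ {h}) z → nbr h m ∉ U :=
    fun m h1 h2 h3 => h1 (comp_adj' h2 h3 (nbr_ne h m) (adjF_symm (nbr_adj h m)))
  have e1 : m + 1 ≠ n := fun h0 => hn (h0 ▸ hm')
  have e2 : n + 1 ≠ m := fun h0 => hm (h0 ▸ hn')
  have := cont hU hz hne hh (m := m + 1) (n := n + 1) (fun h0 => hmn (add_right_cancel h0)) hm' hn'
    (ho n hn hn') (ho m hm hm')
  rcases kk_up1 m n e1 with h1 | h1
  · rcases kk_up0 m n e2 with h2 | h2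
    · rw [h1, h2] at this
      exact absurd this (by decide)
    · exact hmn h2
  · exact hmn h1

theorem dn_unique (hU : IsDom U) (hz : z ∈ U) (hne : h ≠ z) (hh : h ∈ U) {m n : Fin 6}
    (hm : nbr h m ∈ comp (U \ {h}) z) (hm' : nbr h (m + 1) ∉ comp (U \ {h}) z)
    (hn : nbr h n ∈ comp (U \ {h}) z) (hn' : nbr h (n + 1) ∉ comp (U \ {h}) z) : m = n := by
  by_contra hmn
  have ho : ∀ m, nbr h m ∈ comp (U \ {h}) z → nbr h (m + 1) ∉ comp (U \ {h}) z →
      nbr h (m + 1) ∉ U :=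
    fun m h1 h2 h3 => h2 (comp_adj' h1 h3 (nbr_ne h (m + 1)) (nbr_adj h m))
  have := cont hU hz hne hh hmn hm hn (ho m hm hm') (ho n hn hn')
  rw [kk_a m n hmn, kk_b' m n hmn] at this
  exact absurd this (by decide)

theorem exists_nbr (hU : IsDom U) (hz : z ∈ U) (hne : h ≠ z) (hh : h ∈ U) :
    ∃ m, nbr h m ∈ comp (U \ {h}) z := by
  have hzU : z ∈ U \ {h} := Finset.mem_sdiff.2 ⟨hz, by simpa using fun e => hne e.symm⟩
  have hp : Jn (↑U : Set Fc) z h := hU.conn z hz h hh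
  obtain ⟨a, b, _, ha, hb, hb', hab, _⟩ := hp.exit (A := ↑(comp (U \ {h}) z))
    (by exact_mod_cast mem_comp_self hzU) (by exact_mod_cast h_not)
  have hbh : b = h := by
    by_contra h0
    exact hb' (by exact_mod_cast comp_adj' (by exact_mod_cast ha) (by exact_mod_cast hb) h0 hab)
  subst hbh
  obtain ⟨m, rfl⟩ := adjF_nbr (adjF_symm hab)
  exact ⟨m, by exact_mod_cast ha⟩

theorem exists_up {p : Fin 6 → Prop} (h1 : ∃ m, p m) (h2 : ∃ m, ¬ p m) :
    ∃ m, ¬ p m ∧ p (m + 1) := by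
  by_contra hcon
  push Not at hcon
  have hst : ∀ m, p (m + 1) → p m := fun m hm => by
    by_contra h0
    exact hcon m h0 hm
  obtain ⟨m, hm⟩ := h1
  obtain ⟨n, hn⟩ := h2
  have h56 : ∀ m : Fin 6, m + 5 + 1 = m := by decide
  have h5 : ∀ m, p m → p (m + 5) := fun m hm => hst (m + 5) (by rw [h56]; exact hm)
  have h6 : ∀ m n : Fin 6, n = m ∨ n = m + 5 ∨ n = m + 5 + 5 ∨ n = m + 5 + 5 + 5 ∨
      n = m + 5 + 5 + 5 + 5 ∨ n = m + 5 + 5 + 5 + 5 + 5 := by decide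
  apply hn
  rcases h6 m n with h | h | h | h | h | h <;> rw [h]
  · exact hm
  · exact h5 _ hm
  · exact h5 _ (h5 _ hm)
  · exact h5 _ (h5 _ (h5 _ hm))
  · exact h5 _ (h5 _ (h5 _ (h5 _ hm)))
  · exact h5 _ (h5 _ (h5 _ (h5 _ (h5 _ hm))))

theorem exists_dn {p : Fin 6 → Prop} (h1 : ∃ m, p m) (h2 : ∃ m, ¬ p m) :
    ∃ m, p m ∧ ¬ p (m + 1) := by
  obtain ⟨m, hm, hm'⟩ := exists_up (p := fun m => ¬ p m) h2 (by
    obtain ⟨m, hm⟩ := h1
    exact ⟨m, not_not.2 hm⟩)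
  exact ⟨m, not_not.1 hm, hm'⟩

end Geo

theorem dv_third (x : Ed → ZMod 2) (v : Vx) (k : Fin 3) :
    dv x v = x (ed v k) + x (ed v (k + 1)) + x (ed v (k + 2)) := H63.UC.dv_eq x v k

theorem isB_ed' (U : Finset Fc) (v : Vx) (k : Fin 3) : isB U (ed v k) ↔
    (fc v (k + 1) ∈ U ∧ fc v (k + 2) ∉ U) ∨ (fc v (k + 1) ∉ U ∧ fc v (k + 2) ∈ U) :=
  H63.UC.isB_ed U v k

theorem isB_eg (U : Finset Fc) (h : Fc) (m : Fin 6) : isB U (eg h m) ↔
    (h ∈ U ∧ nbr h m ∉ U) ∨ (h ∉ U ∧ nbr h m ∈ U) := by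
  unfold isB
  rcases eg_faces h m with ⟨h1, h2⟩ | ⟨h1, h2⟩ <;> rw [h1, h2]
  tauto

theorem sum_ind {U : Finset Fc} {p : Vx} (hp : inV U p) :
    ∑ v ∈ verts U, ind ({p} : Set Vx) v = 1 := by
  classical
  rw [Finset.sum_eq_single p]
  · exact H74.Tri.ind_mem (Set.mem_singleton p)
  · intro b _ hb
    exact H74.Tri.ind_not (by simpa using hb)
  · intro h0
    exact absurd (mem_verts.2 hp) h0

end Pool.Agent.H7.SM
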