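import Pool.Agent.H7.SM.Step

set_option autoImplicit false
open Pool.Agent.H75.Perc Pool.Agent.H7.UC Pool.Agent.H74.Tri Pool.Agent.H93.SM

/-! # STEP, part 2: the arcs -/

namespace Pool.Agent.H7.SM

section Arcs

variable {U : Finset Fc} {z h : Fc} {n : ℕ} [NeZero n]

/-- the part of the arc on the boundary of the component -/
noncomputable def Ai (M : Marks U n) (W : Finset Fc) (i : Fin n) (e : Ed) : ZMod 2 := by
  classical exact if isB W e then ind (↑(M.C i) : Set Ed) e else 0

theorem Ai_of {M : Marks U n} {W : Finset Fc} {i : Fin n} {e : Ed} (he : isB W e) :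
    Ai M W i e = ind (↑(M.C i) : Set Ed) e := by
  classical
  unfold Ai
  rw [if_pos he]

theorem Ai_not {M : Marks U n} {W : Finset Fc} {i : Fin n} {e : Ed} (he : ¬ isB W e) :
    Ai M W i e = 0 := by
  classical
  unfold Ai
  rw [if_neg he]

theorem C_isB {M : Marks U n} {i : Fin n} {e : Ed} (he : ¬ isB U e) :
    ind (↑(M.C i) : Set Ed) e = 0 := by
  apply H74.Tri.ind_not
  intro h
  exact he ((M.mem e).2 ⟨i, by simpa using h⟩)

/-- a mark has exactly one face -/
theorem mark_one (M : Marks U n) (i : Fin n) {k l : Fin 3} (hk : fc (M.u i) k ∈ U)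
    (hl : fc (M.u i) l ∈ U) : k = l := by
  obtain ⟨m, _, h1, h2, _⟩ := M.out i
  have key : ∀ m k l : Fin 3, k ≠ m + 1 → k ≠ m + 2 → l ≠ m + 1 → l ≠ m + 2 → k = l := by decide
  apply key m k l
  · rintro rfl; exact h1 hk
  · rintro rfl; exact h2 hk
  · rintro rfl; exact h1 hl
  · rintro rfl; exact h2 hl

theorem Ai_supp {M : Marks U n} {W : Finset Fc} {i : Fin n} (e : Ed) (he : Ai M W i e ≠ 0) :
    inE U e := by
  by_cases hW : isB W e
  · rw [Ai_of hW] at he
    by_contra hB
    apply he
    apply C_isB
    intro h0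
    exact hB (H63.UC.isB_inE h0)
  · exact absurd (Ai_not hW) he

/-- degrees of the cut arcs -/
theorem dvA (hh : h ∈ U) (M : Marks U n) (j : Fin n) {ka : Fin 3} (hj : fc (M.u j) ka = h)
    (hoth : ∀ i, i ≠ j → ∃ k, fc (M.u i) k ∈ comp (U \ {h}) z) {m1 m2 : Fin 6}
    (h1 : nbr h m1 ∉ comp (U \ {h}) z) (h1' : nbr h (m1 + 1) ∈ comp (U \ {h}) z)
    (h2 : nbr h m2 ∈ comp (U \ {h}) z) (h2' : nbr h (m2 + 1) ∉ comp (U \ {h}) z)
    (u1 : ∀ m, nbr h m ∉ comp (U \ {h}) z → nbr h (m + 1) ∈ comp (U \ {h}) z → m = m1)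
    (u2 : ∀ m, nbr h m ∈ comp (U \ {h}) z → nbr h (m + 1) ∉ comp (U \ {h}) z → m = m2)
    (i : Fin n) (w : Vx) :
    dv (Ai M (comp (U \ {h}) z) i) w = (if i = j then 0 else ind ({M.u i} : Set Vx) w) +
      (if i + 1 = j then 0 else ind ({M.u (i + 1)} : Set Vx) w) +
      ind (↑(M.C i) : Set Ed) (ed (vtx h m1) (kx m1)) * ind ({vtx h m1} : Set Vx) w +
      ind (↑(M.C i) : Set Ed) (ed (vtx h m2) (kx m2)) * ind ({vtx h m2} : Set Vx) w := by
  classical
  set W := comp (U \ {h}) z with hW
  have hWU : W ⊆ U := comp_sub'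
  have hhW : h ∉ W := h_not
  have hadj : ∀ {f g : Fc}, f ∈ W → g ∈ U → g ≠ h → adjF f g → g ∈ W :=
    fun {f g} a b c d => comp_adj' a b c d
  -- marks (other than `j`) at a vertex
  have hmz : ∀ i' w, (∀ l, i' ≠ j → w = M.u i' → fc w l ∉ W) →
      (if i' = j then (0 : ZMod 2) else ind ({M.u i'} : Set Vx) w) = 0 := by
    intro i' w hw
    by_cases hi : i' = j
    · rw [if_pos hi]
    · rw [if_neg hi]
      apply H74.Tri.ind_not
      intro h0
      have h0' : w = M.u i' := Set.mem_singleton_iff.1 h0
      obtain ⟨k, hk⟩ := hoth i' hi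
      exact hw k hi h0' (h0' ▸ hk)
  have tz : ∀ m w, w ≠ vtx h m → ind ({vtx h m} : Set Vx) w = 0 := fun m w hw =>
    H74.Tri.ind_not (by simpa using hw)
  by_cases hw : ∃ l, fc w l ∈ W
  · obtain ⟨l, hl⟩ := hw
    by_cases hwh : ∃ l', fc w l' = h
    · -- vertices of `h`
      obtain ⟨l', hl'⟩ := hwh
      obtain ⟨m, hm, hm'⟩ := eq_vtx w l'
      rw [hl'] at hm
      subst hm
      obtain ⟨f0, f1, f2⟩ := vtx_fc h m
      obtain ⟨e1, e2⟩ := vtx_ed h m
      -- two faces of `U` at the vertex, so it is not a mark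
      have hll' : l ≠ l' := by
        rintro rfl
        rw [hl'] at hl
        exact hhW hl
      have hnm : ∀ i', vtx h m ≠ M.u i' := by
        intro i' h0
        apply hll'
        apply mark_one M i'
        · rw [← h0]; exact hWU hl
        · rw [← h0, hl']; exact hh
      have hz1 : (if i = j then (0 : ZMod 2) else ind ({M.u i} : Set Vx) (vtx h m)) = 0 := by
        split_ifs
        · rfl
        · exact H74.Tri.ind_not (by simpa using hnm i)
      have hz2 : (if i + 1 = j then (0 : ZMod 2) else
          ind ({M.u (i + 1)} : Set Vx) (vtx h m)) = 0 := by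
        split_ifs
        · rfl
        · exact H74.Tri.ind_not (by simpa using hnm (i + 1))
      have heg : ∀ m', Ai M W i (eg h m') = 0 := by
        intro m'
        by_cases hB : isB W (eg h m')
        · rw [Ai_of hB]
          apply C_isB
          rw [isB_eg] at hB ⊢
          rcases hB with hB | hB
          · exact absurd hB.1 hhW
          · rintro (h3 | h3)
            · exact h3.2 (hWU hB.2)
            · exact h3.1 hh
        · exact Ai_not hB
      rw [hz1, hz2, dv_third _ _ (kx m), e1, e2, heg, heg, add_zero, add_zero, zero_add]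
      by_cases t : nbr h m ∈ W
      · by_cases t' : nbr h (m + 1) ∈ W
        · have n1 : m ≠ m1 := by rintro rfl; exact h1 t
          have n2 : m ≠ m2 := by rintro rfl; exact h2' t'
          rw [tz m1 _ (fun h0 => n1 (vtx_inj h h0)), tz m2 _ (fun h0 => n2 (vtx_inj h h0)),
            Ai_not, mul_zero, mul_zero, zero_add, add_zero]
          rw [isB_ed', f1, f2]
          rintro (h0 | h0)
          · exact h0.2 t'
          · exact h0.1 t
        · have n2 : m = m2 := u2 m t t'
          have n1 : m ≠ m1 := by rintro rfl; exact h1 t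
          rw [tz m1 _ (fun h0 => n1 (vtx_inj h h0)), ← n2, Ai_of, mul_zero, zero_add, zero_add,
            H74.Tri.ind_mem (Set.mem_singleton (vtx h m)), mul_one]
          rw [isB_ed', f1, f2]
          exact Or.inl ⟨t, t'⟩
      · have t' : nbr h (m + 1) ∈ W := by
          have : ∀ l l' : Fin 3, l ≠ l' → l = l' + 1 ∨ l = l' + 2 := by decide
          rcases this l l' hll' with h0 | h0
          · rw [h0, hm', f1] at hl; exact absurd hl t
          · rw [h0, hm', f2] at hl; exact hl
        have n1 : m = m1 := u1 m t t'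
        have n2 : m ≠ m2 := by rintro rfl; exact h2' t'
        rw [tz m2 _ (fun h0 => n2 (vtx_inj h h0)), ← n1, Ai_of, mul_zero, add_zero, zero_add,
          H74.Tri.ind_mem (Set.mem_singleton (vtx h m)), mul_one]
        rw [isB_ed', f1, f2]
        exact Or.inr ⟨t, t'⟩
    · -- all faces of `U` at `w` are in the component
      push Not at hwh
      have hall : ∀ l', fc w l' ∈ U → fc w l' ∈ W := by
        intro l' hl'
        by_cases hll : l = l'
        · subst hll; exact hl
        · exact hadj hl hl' (hwh l') (adjF_fc w hll)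
      have hAC : ∀ l', Ai M W i (ed w l') = ind (↑(M.C i) : Set Ed) (ed w l') := by
        intro l'
        by_cases hB : isB U (ed w l')
        · apply Ai_of
          rw [isB_ed'] at hB ⊢
          rcases hB with hB | hB
          · exact Or.inl ⟨hall _ hB.1, fun h0 => hB.2 (hWU h0)⟩
          · exact Or.inr ⟨fun h0 => hB.1 (hWU h0), hall _ hB.2⟩
        · rw [C_isB hB]
          by_cases hB' : isB W (ed w l')
          · rw [Ai_of hB', C_isB hB]
          · exact Ai_not hB'
      have e1 : dv (Ai M W i) w = dv (ind (↑(M.C i) : Set Ed)) w := by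
        unfold dv
        rw [hAC, hAC, hAC]
      have e2 : ∀ i', (if i' = j then (0 : ZMod 2) else ind ({M.u i'} : Set Vx) w) =
          ind ({M.u i'} : Set Vx) w := by
        intro i'
        by_cases hi : i' = j
        · rw [if_pos hi]
          symm
          apply H74.Tri.ind_not
          intro h0
          have h0' : w = M.u i' := Set.mem_singleton_iff.1 h0
          apply hwh ka
          rw [h0', hi, hj]
        · rw [if_neg hi]
      have t1 : w ≠ vtx h m1 := fun h0 => hwh (kx m1) (by rw [h0]; exact (vtx_fc h m1).1)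
      have t2 : w ≠ vtx h m2 := fun h0 => hwh (kx m2) (by rw [h0]; exact (vtx_fc h m2).1)
      rw [e1, M.dvC, e2, e2, tz _ _ t1, tz _ _ t2, mul_zero, mul_zero, add_zero, add_zero]
  · -- no face of the component
    push Not at hw
    have e1 : dv (Ai M W i) w = 0 := by
      have : ∀ l, Ai M W i (ed w l) = 0 := by
        intro l
        apply Ai_not
        rw [isB_ed']
        rintro (h0 | h0)
        · exact hw _ h0.1
        · exact hw _ h0.2
      unfold dv
      rw [this, this, this]
      rfl
    have t1 : w ≠ vtx h m1 := by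
      rintro rfl
      apply hw (kx m1 + 2)
      rw [(vtx_fc h m1).2.2]; exact h1'
    have t2 : w ≠ vtx h m2 := by
      rintro rfl
      apply hw (kx m2 + 1)
      rw [(vtx_fc h m2).2.1]; exact h2
    rw [e1, hmz i w (fun l _ _ => hw l), hmz (i + 1) w (fun l _ _ => hw l), tz _ _ t1, tz _ _ t2,
      mul_zero, mul_zero]
    rfl

end Arcs

end Pool.Agent.H7.SM
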