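import Pool.Agent.H7.SM.Step2

set_option autoImplicit false
open Pool.Agent.H75.Perc Pool.Agent.H7.UC Pool.Agent.H74.Tri Pool.Agent.H93.SM

/-! # STEP, part 3: the new marks -/

namespace Pool.Agent.H7.SM

theorem fin_add_one_ne {n : ℕ} [NeZero n] (hn : 2 ≤ n) (j : Fin n) : j + 1 ≠ j := by
  intro h
  have h1 : (1 : Fin n) = 0 := by
    have : j + 1 = j + 0 := by rw [h, add_zero]
    exact add_left_cancel this
  have h2 : ((1 : Fin n) : ℕ) = 0 := by rw [h1]; rfl
  rw [Fin.val_one'] at h2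
  have := Nat.mod_eq_of_lt hn
  omega

section Arcs

variable {U : Finset Fc} {z h : Fc} {n : ℕ} [NeZero n]

theorem inV_mark (M : Marks U n) (i : Fin n) : inV U (M.u i) := by
  obtain ⟨k, hk, _⟩ := M.out i
  exact ⟨k, hk⟩

theorem parA (hh : h ∈ U) (M : Marks U n) (j : Fin n) {ka : Fin 3} (hj : fc (M.u j) ka = h)
    (hoth : ∀ i, i ≠ j → ∃ k, fc (M.u i) k ∈ comp (U \ {h}) z) {m1 m2 : Fin 6}
    (h1 : nbr h m1 ∉ comp (U \ {h}) z) (h1' : nbr h (m1 + 1) ∈ comp (U \ {h}) z)
    (h2 : nbr h m2 ∈ comp (U \ {h}) z) (h2' : nbr h (m2 + 1) ∉ comp (U \ {h}) z)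
    (u1 : ∀ m, nbr h m ∉ comp (U \ {h}) z → nbr h (m + 1) ∈ comp (U \ {h}) z → m = m1)
    (u2 : ∀ m, nbr h m ∈ comp (U \ {h}) z → nbr h (m + 1) ∉ comp (U \ {h}) z → m = m2)
    (i : Fin n) :
    (if i = j then (0 : ZMod 2) else 1) + (if i + 1 = j then 0 else 1) +
      ind (↑(M.C i) : Set Ed) (ed (vtx h m1) (kx m1)) +
      ind (↑(M.C i) : Set Ed) (ed (vtx h m2) (kx m2)) = 0 := by
  have h0 := sum_dv (U := U) (x := Ai M (comp (U \ {h}) z) i) Ai_supp
  have hs : ∀ i', ∑ v ∈ verts U, (if i' = j then (0 : ZMod 2) else ind ({M.u i'} : Set Vx) v) =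
      if i' = j then 0 else 1 := by
    intro i'
    split_ifs
    · exact Finset.sum_const_zero
    · exact sum_ind (inV_mark M i')
  have hv : ∀ m, inV U (vtx h m) := fun m => ⟨kx m, by rw [(vtx_fc h m).1]; exact hh⟩
  rw [Finset.sum_congr rfl (fun v _ => dvA hh M j hj hoth h1 h1' h2 h2' u1 u2 i v),
    Finset.sum_add_distrib, Finset.sum_add_distrib, Finset.sum_add_distrib, hs, hs,
    ← Finset.mul_sum, ← Finset.mul_sum, sum_ind (hv m1), sum_ind (hv m2), mul_one, mul_one] at h0
  exact h0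

theorem z2x {a b : ZMod 2} (h : 1 + a + b = 0) : (a = 1 ∧ b = 0) ∨ (a = 0 ∧ b = 1) := by
  revert a b; decide

theorem ends (hU : IsDom U) (hn : 2 ≤ n) (hh : h ∈ U) (M : Marks U n) (j : Fin n)
    {ka : Fin 3} (hj : fc (M.u j) ka = h)
    (hoth : ∀ i, i ≠ j → ∃ k, fc (M.u i) k ∈ comp (U \ {h}) z) {m1 m2 : Fin 6}
    (h1 : nbr h m1 ∉ comp (U \ {h}) z) (h1' : nbr h (m1 + 1) ∈ comp (U \ {h}) z)
    (h2 : nbr h m2 ∈ comp (U \ {h}) z) (h2' : nbr h (m2 + 1) ∉ comp (U \ {h}) z)
    (u1 : ∀ m, nbr h m ∉ comp (U \ {h}) z → nbr h (m + 1) ∈ comp (U \ {h}) z → m = m1)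
    (u2 : ∀ m, nbr h m ∈ comp (U \ {h}) z → nbr h (m + 1) ∉ comp (U \ {h}) z → m = m2) :
    ∀ i, ind (↑(M.C i) : Set Ed) (ed (vtx h m1) (kx m1)) = (if i = j then 1 else 0) ∧
      ind (↑(M.C i) : Set Ed) (ed (vtx h m2) (kx m2)) = (if i + 1 = j then 1 else 0) := by
  classical
  have hpar := parA hh M j hj hoth h1 h1' h2 h2' u1 u2
  have hdv := dvA hh M j hj hoth h1 h1' h2 h2' u1 u2
  set W := comp (U \ {h}) z with hW
  have hWU : W ⊆ U := comp_sub'
  have hhW : h ∉ W := h_not
  have hjj := fin_add_one_ne hn j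
  -- the tip
  obtain ⟨ma, hma, hka⟩ := eq_vtx (M.u j) ka
  rw [hj] at hma
  obtain ⟨k', ho1, ho2, ho3, ho4⟩ := M.out j
  have hkk : k' = ka := mark_one M j ho1 (by rw [hj]; exact hh)
  subst hkk
  obtain ⟨a0, a1, a2⟩ := vtx_fc h ma
  obtain ⟨b1, b2⟩ := vtx_ed h ma
  rw [hma, hka, a1] at ho2
  rw [hma, hka, a2] at ho3
  rw [hma, hka, b1] at ho4
  have hm2a : ma ≠ m2 := by
    rintro rfl
    exact ho2 (hWU h2)
  -- the disjointness of the arcs
  have hdis : ∀ (e : Ed) (i l : Fin n), i ≠ l → ind (↑(M.C i) : Set Ed) e = 1 →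
      ind (↑(M.C l) : Set Ed) e = 0 := by
    intro e i l hil h0
    have h3 : e ∈ M.C i := by
      by_contra h4
      rw [H74.Tri.ind_not (by simpa using h4)] at h0
      exact absurd h0 (by decide)
    apply H74.Tri.ind_not
    intro h4
    exact Finset.disjoint_left.1 (M.disj i l hil) h3 (by simpa using h4)
  have hpj := hpar j
  rw [if_pos rfl, if_neg hjj, zero_add] at hpj
  -- orientation
  have hor : ind (↑(M.C j) : Set Ed) (ed (vtx h m2) (kx m2)) = 0 := by
    rcases z2x hpj with h3 | h3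
    · exact h3.2
    · exfalso
      obtain ⟨hα1, hα2⟩ := h3
      -- the part of the arc which is not on the boundary of the component
      let y : Ed → ZMod 2 := fun e => ind (↑(M.C j) : Set Ed) e + Ai M W j e
      have hyd : ∀ w, dv y w = ind ({M.u j} : Set Vx) w + ind ({vtx h m2} : Set Vx) w := by
        intro w
        have e1 : dv y w = dv (ind (↑(M.C j) : Set Ed)) w + dv (Ai M W j) w :=
          H74.Tri.dv_add _ _ _
        rw [e1, M.dvC, hdv, if_pos rfl, if_neg hjj, hα1, hα2]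
        generalize ind ({M.u j} : Set Vx) w = a
        generalize ind ({M.u (j + 1)} : Set Vx) w = b
        generalize ind ({vtx h m1} : Set Vx) w = c
        generalize ind ({vtx h m2} : Set Vx) w = d
        clear * -
        revert a b c d
        decide
      have hys : ∀ e, y e ≠ 0 → inE U e := by
        intro e he
        by_cases h4 : ind (↑(M.C j) : Set Ed) e = 0
        · apply Ai_supp (M := M) (W := W) (i := j) e
          intro h5
          apply he
          simp only [y]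
          rw [h4, h5, add_zero]
        · by_contra h6
          apply h4
          apply C_isB
          intro h7
          exact h6 (H63.UC.isB_inE h7)
      obtain ⟨s, hs, hsb⟩ := H63.UC.d1 U hU (fun e => y e + arc h (kk ma m2) e) (by
        intro e he
        by_cases h4 : y e = 0
        · refine arc_supp hh (kk ma m2) e (fun h5 => he ?_)
          show y e + arc h (kk ma m2) e = 0
          rw [h4, h5, add_zero]
        · exact hys e h4) (by
        intro w
        rw [H74.Tri.dv_add, hyd, arc_kk h hm2a, hma]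
        generalize ind ({vtx h ma} : Set Vx) w = a
        generalize ind ({vtx h m2} : Set Vx) w = d
        clear * -
        revert a d
        decide)
      -- the face `h` is not in `s`
      have g1 := hsb (eg h (ma + 1))
      have g1a : y (eg h (ma + 1)) = 1 := by
        simp only [y]
        rw [H74.Tri.ind_mem (by exact_mod_cast ho4), Ai_not, add_zero]
        rw [isB_eg]
        rintro (h4 | h4)
        · exact hhW h4.1
        · exact ho3 (hWU h4.2)
      rw [g1a, arc_eg, kk_a ma m2 hm2a, bd_eg, H74.Tri.ind_not (a := nbr h (ma + 1))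
        (fun h3 => ho3 (hs (Finset.mem_coe.1 h3))), add_zero] at g1
      -- the face `nbr h m2` is in `s`
      have g2 := hsb (eg h m2)
      have g2n : ¬ isB U (eg h m2) := by
        rw [isB_eg]
        rintro (h4 | h4)
        · exact h4.2 (hWU h2)
        · exact h4.1 hh
      have g2a : y (eg h m2) = 0 := by
        simp only [y]
        rw [C_isB g2n, zero_add]
        by_cases hB : isB W (eg h m2)
        · rw [Ai_of hB, C_isB g2n]
        · exact Ai_not hB
      rw [g2a, arc_eg, kk_b ma m2 hm2a, bd_eg, ← g1] at g2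
      -- the third edge at `vtx h m2`
      have g3 := hsb (ed (vtx h m2) (kx m2))
      obtain ⟨f0, f1, f2⟩ := vtx_fc h m2
      have hBW : isB W (ed (vtx h m2) (kx m2)) := by
        rw [isB_ed', f1, f2]
        exact Or.inl ⟨h2, h2'⟩
      have hng : nbr h (m2 + 1) ∉ U := fun h4 =>
        h2' (comp_adj' h2 h4 (nbr_ne h (m2 + 1)) (nbr_adj h m2))
      have g3a : y (ed (vtx h m2) (kx m2)) = 0 := by
        simp only [y]
        rw [Ai_of hBW, two_zmod]
      have g3b : arc h (kk ma m2) (ed (vtx h m2) (kx m2)) = 0 := by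
        apply arc_other
        intro m hm
        have h4 : lf (eg h m) = h ∨ rf (eg h m) = h := by
          rcases eg_faces h m with h5 | h5
          · exact Or.inl h5.1
          · exact Or.inr h5.2
        rw [← hm] at h4
        rcases ed_faces (vtx h m2) (kx m2) with ⟨h5, h6⟩ | ⟨h5, h6⟩ <;> rw [h5, h6, f1, f2] at h4 <;>
          rcases h4 with h4 | h4 <;> exact nbr_ne _ _ h4
      rw [g3a, g3b, H63.UC.bd_ed, f1, f2, H74.Tri.ind_not (a := nbr h (m2 + 1))
        (fun h3 => hng (hs (Finset.mem_coe.1 h3))), add_zero, add_zero] at g3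
      rw [← g3] at g2
      exact absurd g2 (by decide)
  have hor1 : ind (↑(M.C j) : Set Ed) (ed (vtx h m1) (kx m1)) = 1 := by
    rcases z2x hpj with h3 | h3
    · exact h3.1
    · rw [hor] at h3
      exact absurd h3.2 (by decide)
  have e1 : ∀ i, i ≠ j → ind (↑(M.C i) : Set Ed) (ed (vtx h m1) (kx m1)) = 0 :=
    fun i hi => hdis _ j i (fun h0 => hi h0.symm) hor1
  intro i
  by_cases hi : i = j
  · subst hi
    rw [if_pos rfl, if_neg hjj]
    exact ⟨hor1, hor⟩
  · rw [if_neg hi]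
    refine ⟨e1 i hi, ?_⟩
    have hp := hpar i
    rw [if_neg hi, e1 i hi] at hp
    by_cases hi' : i + 1 = j
    · rw [if_pos hi'] at hp ⊢
      generalize ind (↑(M.C i) : Set Ed) (ed (vtx h m2) (kx m2)) = a at hp ⊢
      clear * - hp
      revert a
      decide
    · rw [if_neg hi'] at hp ⊢
      generalize ind (↑(M.C i) : Set Ed) (ed (vtx h m2) (kx m2)) = a at hp ⊢
      clear * - hp
      revert a
      decide

/-- chain of the new edges -/
theorem ind_newE {W : Finset Fc} (hhW : h ∉ W) (e : Ed) [∀ m, Decidable (nbr h m ∈ W)] :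
    ind {e | newE W h e} e = arc h (fun m => if nbr h m ∈ W then 1 else 0) e := by
  by_cases he : newE W h e
  · rw [H74.Tri.ind_mem (s := {e | newE W h e}) he]
    have hm : ∃ m, e = eg h m ∧ nbr h m ∈ W := by
      have hadj : ∀ f, f ∈ W → adjF h f → ∃ m, f = nbr h m := fun f _ h0 => adjF_nbr h0
      rcases he with ⟨h1, h2⟩ | ⟨h1, h2⟩
      · obtain ⟨m, hm⟩ := hadj _ h2 ⟨e, Or.inl ⟨h1, rfl⟩⟩
        refine ⟨m, edge_eq ?_, hm ▸ h2⟩
        rcases eg_faces h m with ⟨h3, h4⟩ | ⟨h3, h4⟩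
        · exact Or.inl ⟨by rw [h1, h3], by rw [hm, h4]⟩
        · exact Or.inr ⟨by rw [h1, h4], by rw [hm, h3]⟩
      · obtain ⟨m, hm⟩ := hadj _ h1 ⟨e, Or.inr ⟨rfl, h2⟩⟩
        refine ⟨m, edge_eq ?_, hm ▸ h1⟩
        rcases eg_faces h m with ⟨h3, h4⟩ | ⟨h3, h4⟩
        · exact Or.inr ⟨by rw [hm, h4], by rw [h2, h3]⟩
        · exact Or.inl ⟨by rw [hm, h3], by rw [h2, h4]⟩
    obtain ⟨m, rfl, hm⟩ := hm
    rw [arc_eg, if_pos hm]
  · rw [H74.Tri.ind_not (s := {e | newE W h e}) he]
    symm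
    by_cases hm : ∃ m, e = eg h m
    · obtain ⟨m, rfl⟩ := hm
      rw [arc_eg, if_neg]
      intro h1
      apply he
      rcases eg_faces h m with ⟨h3, h4⟩ | ⟨h3, h4⟩
      · exact Or.inl ⟨h3, by rw [h4]; exact h1⟩
      · exact Or.inr ⟨by rw [h3]; exact h1, h4⟩
    · push Not at hm
      exact arc_other _ hm

theorem dv_newE {W : Finset Fc} (hhW : h ∉ W) {m1 m2 : Fin 6}
    (h1 : nbr h m1 ∉ W) (h1' : nbr h (m1 + 1) ∈ W)
    (h2 : nbr h m2 ∈ W) (h2' : nbr h (m2 + 1) ∉ W)
    (u1 : ∀ m, nbr h m ∉ W → nbr h (m + 1) ∈ W → m = m1)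
    (u2 : ∀ m, nbr h m ∈ W → nbr h (m + 1) ∉ W → m = m2) (v : Vx) :
    dv (ind {e | newE W h e}) v = ind ({vtx h m1} : Set Vx) v + ind ({vtx h m2} : Set Vx) v := by
  classical
  have e1 : dv (ind {e | newE W h e}) v = dv (arc h (fun m => if nbr h m ∈ W then 1 else 0)) v := by
    unfold dv
    rw [ind_newE hhW, ind_newE hhW, ind_newE hhW]
  rw [e1, arc_dv]
  have : ∀ m, ((if nbr h m ∈ W then (1 : ZMod 2) else 0) + (if nbr h (m + 1) ∈ W then 1 else 0)) *
      ind ({vtx h m} : Set Vx) v = (if m = m1 then ind ({vtx h m} : Set Vx) v else 0) +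
      (if m = m2 then ind ({vtx h m} : Set Vx) v else 0) := by
    intro m
    by_cases t : nbr h m ∈ W <;> by_cases t' : nbr h (m + 1) ∈ W
    · have n1 : m ≠ m1 := by rintro rfl; exact h1 t
      have n2 : m ≠ m2 := by rintro rfl; exact h2' t'
      rw [if_pos t, if_pos t', if_neg n1, if_neg n2, two_zmod, zero_mul, add_zero]
    · have n1 : m ≠ m1 := by rintro rfl; exact h1 t
      rw [if_pos t, if_neg t', if_neg n1, if_pos (u2 m t t'), add_zero, zero_add, one_mul]
    · have n2 : m ≠ m2 := by rintro rfl; exact t h2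
      rw [if_neg t, if_pos t', if_pos (u1 m t t'), if_neg n2, add_zero, zero_add, one_mul]
    · have n1 : m ≠ m1 := by rintro rfl; exact t' h1'
      have n2 : m ≠ m2 := by rintro rfl; exact t h2
      rw [if_neg t, if_neg t', if_neg n1, if_neg n2, add_zero, zero_mul]
  simp only [this]
  rw [Finset.sum_add_distrib, Finset.sum_ite_eq' Finset.univ m1, Finset.sum_ite_eq' Finset.univ m2]
  simp

end Arcs

end Pool.Agent.H7.SM
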